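import Pool.Agent.helper16.Cube.Basic

/-!
# Small cubes: explicit path partitions
-/

namespace Pool.Agent.helper16.Cube

open Finset

/-- two disjoint paths with prescribed starts and lengths, with ends outside small sets -/
def Two (m f : ℕ) : Prop := ∀ (s₁ s₂ : V m) (a₁ a₂ : ℕ) (F₁ F₂ : Finset (V m)), s₁ ≠ s₂ →
  Even a₁ → Even a₂ → 2 ≤ a₁ → 2 ≤ a₂ → a₁ + a₂ = 2 ^ m → F₁.card ≤ f → F₂.card ≤ f →
  ∃ l₁ l₂ t₁ t₂, HP l₁ s₁ t₁ a₁ ∧ HP l₂ s₂ t₂ a₂ ∧ l₁.Disjoint l₂ ∧ t₁ ∉ F₁ ∧ t₂ ∉ F₂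

/-- the vertex with binary code `n` -/
def vec (m n : ℕ) : V m := fun i => n.testBit i

/-- adjacency of codes -/
def adjc (a b : ℕ) : Bool := (a ^^^ b) == 1 || (a ^^^ b) == 2 || (a ^^^ b) == 4

/-- consecutive codes are adjacent -/
def chainc : List ℕ → Bool
  | [] => true
  | [_] => true
  | x :: y :: l => adjc x y && chainc (y :: l)

/-- the codes are distinct -/
def nodupc : List ℕ → Bool
  | [] => true
  | x :: l => !(l.elem x) && nodupc l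

/-- disjointness of lists of codes -/
def disjc (l l' : List ℕ) : Bool := l.all (fun x => !(l'.elem x))

/-- last element -/
def lastc : List ℕ → ℕ
  | [] => 99
  | [x] => x
  | _ :: y :: l => lastc (y :: l)

/-- check that a list of codes is a path from `s` with `n` vertices in the `m`-cube -/
def chk (m : ℕ) (l : List ℕ) (s n : ℕ) : Bool :=
  l.all (fun x => x < 2 ^ m) && chainc l && nodupc l && (l.head? == some s) && (l.length == n)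

/-- the facts about codes used below -/
structure Good (m : ℕ) : Prop where
  adj : ∀ a < 2 ^ m, ∀ b < 2 ^ m, adjc a b = true → Adj (vec m a) (vec m b)
  inj : ∀ a < 2 ^ m, ∀ b < 2 ^ m, vec m a = vec m b → a = b
  surj : ∀ x : V m, ∃ a < 2 ^ m, vec m a = x

lemma good2 : Good 2 := by
  constructor
  · decide +kernel
  · decide +kernel
  · decide +kernel

lemma good3 : Good 3 := by
  constructor
  · decide +kernel
  · decide +kernel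
  · decide +kernel

lemma lastc_spec : ∀ (l : List ℕ), l ≠ [] → l.getLast? = some (lastc l)
  | [], h => absurd rfl h
  | [x], _ => rfl
  | x :: y :: l, _ => by
      rw [List.getLast?_cons_cons, lastc_spec (y :: l) (by simp)]
      rfl

lemma chainc_spec {m : ℕ} (g : Good m) : ∀ (l : List ℕ), (∀ x ∈ l, x < 2 ^ m) → chainc l = true →
    (l.map (vec m)).IsChain Adj
  | [], _, _ => by simp
  | [x], _, _ => by simp
  | x :: y :: l, h, hc => by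
      rw [chainc, Bool.and_eq_true] at hc
      have ih := chainc_spec g (y :: l) (fun z hz => h z (List.mem_cons_of_mem _ hz)) hc.2
      rw [List.map_cons, List.map_cons, List.isChain_cons_cons]
      exact ⟨g.adj x (h x (by simp)) y (h y (by simp)) hc.1, ih⟩

lemma nodupc_spec : ∀ (l : List ℕ), nodupc l = true → l.Nodup
  | [], _ => by simp
  | x :: l, h => by
      rw [nodupc, Bool.and_eq_true] at h
      have ih := nodupc_spec l h.2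
      rw [List.nodup_cons]
      refine ⟨?_, ih⟩
      intro hx
      have := h.1
      simp at this
      exact this hx

lemma map_vec_nodup {m : ℕ} (g : Good m) {l : List ℕ} (h : ∀ x ∈ l, x < 2 ^ m) (hn : l.Nodup) :
    (l.map (vec m)).Nodup := by
  apply List.Nodup.map_on _ hn
  intro x hx y hy e
  exact g.inj x (h x hx) y (h y hy) e

lemma chk_spec {m : ℕ} (g : Good m) {l : List ℕ} {s n : ℕ} (h : chk m l s n = true) :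
    HP (l.map (vec m)) (vec m s) (vec m (lastc l)) n ∧ (∀ x ∈ l, x < 2 ^ m) := by
  unfold chk at h
  simp only [Bool.and_eq_true, List.all_eq_true, decide_eq_true_eq, beq_iff_eq] at h
  obtain ⟨⟨⟨⟨h1, h2⟩, h3⟩, h4⟩, h5⟩ := h
  have hne : l ≠ [] := by rintro rfl; simp at h4
  refine ⟨?_, h1⟩
  constructor
  · exact chainc_spec g l h1 h2
  · exact map_vec_nodup g h1 (nodupc_spec l h3)
  · rw [List.head?_map, h4]; rfl
  · rw [List.getLast?_map, lastc_spec l hne]; rfl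
  · rw [List.length_map]; exact h5

lemma disjc_spec {m : ℕ} (g : Good m) {l l' : List ℕ} (h : ∀ x ∈ l, x < 2 ^ m)
    (h' : ∀ x ∈ l', x < 2 ^ m) (hd : disjc l l' = true) :
    (l.map (vec m)).Disjoint (l'.map (vec m)) := by
  intro z hz hz'
  simp only [List.mem_map] at hz hz'
  obtain ⟨x, hx, rfl⟩ := hz
  obtain ⟨y, hy, e⟩ := hz'
  have hxy := g.inj y (h' y hy) x (h x hx) e
  subst hxy
  unfold disjc at hd
  rw [List.all_eq_true] at hd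
  have := hd y hx
  simp at this
  exact this hy

/-- translation of the cube -/
def tr {m : ℕ} (c x : V m) : V m := fun i => xor (c i) (x i)

lemma tr_tr {m : ℕ} (c x : V m) : tr c (tr c x) = x := by
  funext i; simp [tr]

lemma tr_self {m : ℕ} (c : V m) : tr c c = fun _ => false := by
  funext i; simp [tr]

lemma tr_injective {m : ℕ} (c : V m) : Function.Injective (tr c) := by
  intro x y h
  rw [← tr_tr c x, h, tr_tr]

lemma tr_adj {m : ℕ} (c : V m) (x y : V m) (h : Adj x y) : Adj (tr c x) (tr c y) := by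
  obtain ⟨i, h1, h2⟩ := h
  refine ⟨i, ?_, ?_⟩
  · simpa [tr] using h1
  · intro j hj; simp [tr, h2 j hj]

lemma vec_zero (m : ℕ) : vec m 0 = fun _ => false := by
  funext i; simp [vec]

lemma exists_code {m : ℕ} (g : Good m) {F : Finset (V m)} (hF : F.card ≤ 1) (c : V m) :
    ∃ u < 2 ^ m, ∀ x, x ∈ F → tr c x = vec m u := by
  rcases Nat.le_one_iff_eq_zero_or_eq_one.1 hF with h | h
  · rw [card_eq_zero] at h
    subst h
    exact ⟨0, by positivity, by simp⟩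
  · rw [card_eq_one] at h
    obtain ⟨z, rfl⟩ := h
    obtain ⟨u, hu, hz⟩ := g.surj (tr c z)
    refine ⟨u, hu, ?_⟩
    intro x hx
    rw [mem_singleton] at hx
    subst hx
    exact hz.symm

lemma map_disj {m : ℕ} {l l' : List (V m)} (h : l.Disjoint l') (c : V m) :
    (l.map (tr c)).Disjoint (l'.map (tr c)) := by
  intro z hz hz'
  simp only [List.mem_map] at hz hz'
  obtain ⟨x, hx, rfl⟩ := hz
  obtain ⟨y, hy, e⟩ := hz'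
  have := tr_injective c e
  subst this
  exact h hx hy

/-- candidates for two paths in the 3-cube -/
def cands : ℕ → ℕ → List (List ℕ × List ℕ)
  | 1, 2 => [([0, 2], [1, 3, 7, 6, 4, 5]), ([0, 2], [1, 3, 7, 5, 4, 6]), ([0, 4], [1, 3, 2, 6, 7, 5]), ([0, 4], [1, 5, 7, 6, 2, 3])]
  | 1, 4 => [([0, 2, 3, 7], [1, 5, 4, 6]), ([0, 2, 6, 4], [1, 3, 7, 5]), ([0, 4, 6, 2], [1, 5, 7, 3])]
  | 1, 6 => [([0, 2, 3, 7, 6, 4], [1, 5]), ([0, 2, 6, 7, 5, 4], [1, 3]), ([0, 2, 6, 4, 5, 7], [1, 3]), ([0, 4, 6, 7, 3, 2], [1, 5])]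
  | 2, 2 => [([0, 1], [2, 3, 7, 6, 4, 5]), ([0, 1], [2, 3, 7, 5, 4, 6]), ([0, 4], [2, 3, 1, 5, 7, 6]), ([0, 4], [2, 6, 7, 5, 1, 3])]
  | 2, 4 => [([0, 1, 3, 7], [2, 6, 4, 5]), ([0, 1, 5, 4], [2, 3, 7, 6]), ([0, 4, 5, 1], [2, 6, 7, 3])]
  | 2, 6 => [([0, 1, 3, 7, 5, 4], [2, 6]), ([0, 1, 5, 4, 6, 7], [2, 3]), ([0, 1, 5, 7, 6, 4], [2, 3]), ([0, 4, 5, 7, 3, 1], [2, 6])]
  | 3, 2 => [([0, 1], [3, 2, 6, 7, 5, 4]), ([0, 2], [3, 1, 5, 4, 6, 7]), ([0, 4], [3, 2, 6, 7, 5, 1])]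
  | 3, 4 => [([0, 1, 5, 4], [3, 2, 6, 7]), ([0, 1, 5, 7], [3, 2, 6, 4]), ([0, 4, 5, 1], [3, 7, 6, 2])]
  | 3, 6 => [([0, 1, 5, 4, 6, 7], [3, 2]), ([0, 1, 5, 4, 6, 2], [3, 7]), ([0, 2, 6, 7, 5, 4], [3, 1])]
  | 4, 2 => [([0, 1], [4, 5, 7, 6, 2, 3]), ([0, 1], [4, 5, 7, 3, 2, 6]), ([0, 2], [4, 5, 1, 3, 7, 6]), ([0, 2], [4, 6, 7, 5, 1, 3])]
  | 4, 4 => [([0, 1, 3, 2], [4, 5, 7, 6]), ([0, 1, 5, 7], [4, 6, 2, 3]), ([0, 2, 3, 1], [4, 6, 7, 5])]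
  | 4, 6 => [([0, 1, 3, 2, 6, 7], [4, 5]), ([0, 1, 3, 7, 6, 2], [4, 5]), ([0, 1, 5, 7, 3, 2], [4, 6]), ([0, 2, 3, 1, 5, 7], [4, 6])]
  | 5, 2 => [([0, 1], [5, 4, 6, 7, 3, 2]), ([0, 2], [5, 4, 6, 7, 3, 1]), ([0, 4], [5, 1, 3, 2, 6, 7])]
  | 5, 4 => [([0, 1, 3, 2], [5, 4, 6, 7]), ([0, 1, 3, 7], [5, 4, 6, 2]), ([0, 2, 3, 1], [5, 7, 6, 4])]
  | 5, 6 => [([0, 1, 3, 2, 6, 7], [5, 4]), ([0, 1, 3, 2, 6, 4], [5, 7]), ([0, 4, 6, 7, 3, 2], [5, 1])]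
  | 6, 2 => [([0, 1], [6, 4, 5, 7, 3, 2]), ([0, 2], [6, 7, 3, 1, 5, 4]), ([0, 4], [6, 2, 3, 1, 5, 7])]
  | 6, 4 => [([0, 1, 3, 2], [6, 7, 5, 4]), ([0, 1, 5, 4], [6, 7, 3, 2]), ([0, 2, 3, 1], [6, 4, 5, 7])]
  | 6, 6 => [([0, 1, 3, 7, 5, 4], [6, 2]), ([0, 2, 3, 1, 5, 7], [6, 4]), ([0, 4, 5, 1, 3, 2], [6, 7])]
  | 7, 2 => [([0, 1], [7, 5, 4, 6, 2, 3]), ([0, 2], [7, 3, 1, 5, 4, 6]), ([0, 4], [7, 6, 2, 3, 1, 5])]
  | 7, 4 => [([0, 1, 3, 2], [7, 6, 4, 5]), ([0, 1, 5, 4], [7, 6, 2, 3]), ([0, 2, 3, 1], [7, 5, 4, 6])]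
  | 7, 6 => [([0, 1, 3, 2, 6, 4], [7, 5]), ([0, 2, 6, 4, 5, 1], [7, 3]), ([0, 4, 5, 1, 3, 2], [7, 6])]
  | _, _ => []
/-- three paths in the 3-cube -/
def cands3 : ℕ → ℕ → List ℕ × List ℕ × List ℕ
  | 1, 2 => ([0, 4, 5, 7], [1, 3], [2, 6])
  | 1, 3 => ([0, 2, 6, 4], [1, 5], [3, 7])
  | 1, 4 => ([0, 2, 3, 7], [1, 5], [4, 6])
  | 1, 5 => ([0, 2, 6, 7], [1, 3], [5, 4])
  | 1, 6 => ([0, 2, 3, 7], [1, 5], [6, 4])
  | 1, 7 => ([0, 2, 6, 4], [1, 3], [7, 5])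
  | 2, 1 => ([0, 4, 5, 7], [2, 6], [1, 3])
  | 2, 3 => ([0, 1, 5, 4], [2, 6], [3, 7])
  | 2, 4 => ([0, 1, 3, 7], [2, 6], [4, 5])
  | 2, 5 => ([0, 1, 3, 7], [2, 6], [5, 4])
  | 2, 6 => ([0, 1, 5, 4], [2, 3], [6, 7])
  | 2, 7 => ([0, 1, 5, 4], [2, 3], [7, 6])
  | 3, 1 => ([0, 2, 6, 4], [3, 7], [1, 5])
  | 3, 2 => ([0, 1, 5, 4], [3, 7], [2, 6])
  | 3, 4 => ([0, 1, 5, 7], [3, 2], [4, 6])
  | 3, 5 => ([0, 2, 6, 7], [3, 1], [5, 4])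
  | 3, 6 => ([0, 1, 5, 4], [3, 2], [6, 7])
  | 3, 7 => ([0, 1, 5, 4], [3, 2], [7, 6])
  | 4, 1 => ([0, 2, 3, 7], [4, 6], [1, 5])
  | 4, 2 => ([0, 1, 3, 7], [4, 5], [2, 6])
  | 4, 3 => ([0, 1, 5, 7], [4, 6], [3, 2])
  | 4, 5 => ([0, 1, 3, 2], [4, 6], [5, 7])
  | 4, 6 => ([0, 1, 3, 2], [4, 5], [6, 7])
  | 4, 7 => ([0, 1, 3, 2], [4, 5], [7, 6])
  | 5, 1 => ([0, 2, 6, 7], [5, 4], [1, 3])
  | 5, 2 => ([0, 1, 3, 7], [5, 4], [2, 6])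
  | 5, 3 => ([0, 2, 6, 7], [5, 4], [3, 1])
  | 5, 4 => ([0, 1, 3, 2], [5, 7], [4, 6])
  | 5, 6 => ([0, 1, 3, 2], [5, 4], [6, 7])
  | 5, 7 => ([0, 1, 3, 2], [5, 4], [7, 6])
  | 6, 1 => ([0, 2, 3, 7], [6, 4], [1, 5])
  | 6, 2 => ([0, 1, 5, 4], [6, 7], [2, 3])
  | 6, 3 => ([0, 1, 5, 4], [6, 7], [3, 2])
  | 6, 4 => ([0, 1, 3, 2], [6, 7], [4, 5])
  | 6, 5 => ([0, 1, 3, 2], [6, 7], [5, 4])
  | 6, 7 => ([0, 1, 3, 2], [6, 4], [7, 5])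
  | 7, 1 => ([0, 2, 6, 4], [7, 5], [1, 3])
  | 7, 2 => ([0, 1, 5, 4], [7, 6], [2, 3])
  | 7, 3 => ([0, 1, 5, 4], [7, 6], [3, 2])
  | 7, 4 => ([0, 1, 3, 2], [7, 6], [4, 5])
  | 7, 5 => ([0, 1, 3, 2], [7, 6], [5, 4])
  | 7, 6 => ([0, 1, 3, 2], [7, 5], [6, 4])
  | _, _ => ([], [], [])

/-- candidates in the 2-cube -/
def cands2 : ℕ → List ℕ × List ℕ
  | 1 => ([0, 2], [1, 3])
  | 2 => ([0, 1], [2, 3])
  | 3 => ([0, 1], [3, 2])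
  | _ => ([], [])

lemma check2 : ∀ n < 4, n ≠ 0 →
    (chk 2 (cands2 n).1 0 2 && chk 2 (cands2 n).2 n 2 &&
      disjc (cands2 n).1 (cands2 n).2) = true := by decide +kernel

lemma check3 : ∀ n < 8, n ≠ 0 → ∀ a ∈ [2, 4, 6], ∀ u₁ < 8, ∀ u₂ < 8, ∃ p ∈ cands n a,
    (chk 3 p.1 0 a && chk 3 p.2 n (8 - a) &&
      disjc p.1 p.2 && !(lastc p.1 == u₁) && !(lastc p.2 == u₂)) = true := by decide +kernel

lemma check33 : ∀ n < 8, n ≠ 0 → ∀ k < 8, k ≠ 0 → n ≠ k →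
    (chk 3 (cands3 n k).1 0 4 && chk 3 (cands3 n k).2.1 n 2 && chk 3 (cands3 n k).2.2 k 2 &&
      disjc (cands3 n k).1 (cands3 n k).2.1 && disjc (cands3 n k).1 (cands3 n k).2.2 &&
      disjc (cands3 n k).2.1 (cands3 n k).2.2) = true := by decide +kernel

theorem two2 : Two 2 0 := by
  intro s₁ s₂ a₁ a₂ F₁ F₂ hs ha₁ ha₂ h₁ h₂ hsum hF₁ hF₂
  have e1 : a₁ = 2 := by obtain ⟨x, hx⟩ := ha₁; obtain ⟨y, hy⟩ := ha₂; omega
  have e2 : a₂ = 2 := by obtain ⟨x, hx⟩ := ha₁; obtain ⟨y, hy⟩ := ha₂; omega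
  subst e1; subst e2
  obtain ⟨n, hn, hv⟩ := good2.surj (tr s₁ s₂)
  have hn0 : n ≠ 0 := by
    rintro rfl
    rw [vec_zero, ← tr_self s₁] at hv
    exact hs (tr_injective _ hv)
  have hc := check2 n hn hn0
  simp only [Bool.and_eq_true] at hc
  obtain ⟨⟨hc1, hc2⟩, hc3⟩ := hc
  obtain ⟨p1, b1⟩ := chk_spec good2 hc1
  obtain ⟨p2, b2⟩ := chk_spec good2 hc2
  have q1 := p1.map (tr s₁) (tr_injective _) (tr_adj _)
  have q2 := p2.map (tr s₁) (tr_injective _) (tr_adj _)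
  rw [vec_zero, ← tr_self s₁, tr_tr] at q1
  rw [hv, tr_tr] at q2
  refine ⟨_, _, _, _, q1, q2, map_disj (disjc_spec good2 b1 b2 hc3) _, ?_, ?_⟩
  · have : F₁ = ∅ := by rw [← card_eq_zero]; omega
    simp [this]
  · have : F₂ = ∅ := by rw [← card_eq_zero]; omega
    simp [this]

theorem two3 : Two 3 1 := by
  intro s₁ s₂ a₁ a₂ F₁ F₂ hs ha₁ ha₂ h₁ h₂ hsum hF₁ hF₂
  have e1 : a₁ ∈ [2, 4, 6] := by
    obtain ⟨x, hx⟩ := ha₁; obtain ⟨y, hy⟩ := ha₂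
    simp only [List.mem_cons, List.not_mem_nil, or_false]
    omega
  have e2 : a₂ = 8 - a₁ := by omega
  subst e2
  obtain ⟨n, hn, hv⟩ := good3.surj (tr s₁ s₂)
  have hn0 : n ≠ 0 := by
    rintro rfl
    rw [vec_zero, ← tr_self s₁] at hv
    exact hs (tr_injective _ hv)
  obtain ⟨u₁, hu₁, hu₁'⟩ := exists_code good3 hF₁ s₁
  obtain ⟨u₂, hu₂, hu₂'⟩ := exists_code good3 hF₂ s₁
  obtain ⟨p, hp, hc⟩ := check3 n hn hn0 a₁ e1 u₁ hu₁ u₂ hu₂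
  simp only [Bool.and_eq_true, Bool.not_eq_true', beq_eq_false_iff_ne] at hc
  obtain ⟨⟨⟨⟨hc1, hc2⟩, hc3⟩, hc4⟩, hc5⟩ := hc
  obtain ⟨p1, b1⟩ := chk_spec good3 hc1
  obtain ⟨p2, b2⟩ := chk_spec good3 hc2
  have q1 := p1.map (tr s₁) (tr_injective _) (tr_adj _)
  have q2 := p2.map (tr s₁) (tr_injective _) (tr_adj _)
  rw [vec_zero, ← tr_self s₁, tr_tr] at q1
  rw [hv, tr_tr] at q2
  have last_mem : ∀ l : List ℕ, ∀ s k, chk 3 l s k = true → lastc l ∈ l := by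
    intro l s k h
    have hne : l ≠ [] := by
      rintro rfl
      simp [chk] at h
    exact List.mem_of_getLast? (lastc_spec l hne)
  refine ⟨_, _, _, _, q1, q2, map_disj (disjc_spec good3 b1 b2 hc3) _, ?_, ?_⟩
  · intro hm
    have := hu₁' _ hm
    rw [tr_tr] at this
    exact hc4 (good3.inj _ (b1 _ (last_mem _ _ _ hc1)) _ hu₁ this)
  · intro hm
    have := hu₂' _ hm
    rw [tr_tr] at this
    exact hc5 (good3.inj _ (b2 _ (last_mem _ _ _ hc2)) _ hu₂ this)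

/-- three paths with 4, 2, 2 vertices in the 3-cube -/
theorem three3 (s₁ s₂ s₃ : V 3) (h12 : s₁ ≠ s₂) (h13 : s₁ ≠ s₃) (h23 : s₂ ≠ s₃) :
    ∃ l₁ l₂ l₃ t₁ t₂ t₃, HP l₁ s₁ t₁ 4 ∧ HP l₂ s₂ t₂ 2 ∧ HP l₃ s₃ t₃ 2 ∧
      l₁.Disjoint l₂ ∧ l₁.Disjoint l₃ ∧ l₂.Disjoint l₃ := by
  obtain ⟨n, hn, hv⟩ := good3.surj (tr s₁ s₂)
  obtain ⟨k, hk, hw⟩ := good3.surj (tr s₁ s₃)
  have hn0 : n ≠ 0 := by
    rintro rfl
    rw [vec_zero, ← tr_self s₁] at hv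
    exact h12 (tr_injective _ hv)
  have hk0 : k ≠ 0 := by
    rintro rfl
    rw [vec_zero, ← tr_self s₁] at hw
    exact h13 (tr_injective _ hw)
  have hnk : n ≠ k := by
    rintro rfl
    rw [hv] at hw
    exact h23 (tr_injective _ hw)
  have hc := check33 n hn hn0 k hk hk0 hnk
  simp only [Bool.and_eq_true] at hc
  obtain ⟨⟨⟨⟨⟨hc1, hc2⟩, hc3⟩, hc4⟩, hc5⟩, hc6⟩ := hc
  obtain ⟨p1, b1⟩ := chk_spec good3 hc1
  obtain ⟨p2, b2⟩ := chk_spec good3 hc2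
  obtain ⟨p3, b3⟩ := chk_spec good3 hc3
  have q1 := p1.map (tr s₁) (tr_injective _) (tr_adj _)
  have q2 := p2.map (tr s₁) (tr_injective _) (tr_adj _)
  have q3 := p3.map (tr s₁) (tr_injective _) (tr_adj _)
  rw [vec_zero, ← tr_self s₁, tr_tr] at q1
  rw [hv, tr_tr] at q2
  rw [hw, tr_tr] at q3
  exact ⟨_, _, _, _, _, _, q1, q2, q3, map_disj (disjc_spec good3 b1 b2 hc4) _,
    map_disj (disjc_spec good3 b1 b3 hc5) _, map_disj (disjc_spec good3 b2 b3 hc6) _⟩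

end Pool.Agent.helper16.Cube
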