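import Mathlib

/-!
# Paths in hypercubes

Vertices of the `m`-cube are functions `Fin m → Bool`.
-/

namespace Pool.Agent.helper16.Cube

open Finset

/-- vertices of the `m`-cube -/
abbrev V (m : ℕ) := Fin m → Bool

/-- two vertices are adjacent when they differ in exactly one coordinate -/
def Adj {m : ℕ} (x y : V m) : Prop := ∃ i, x i ≠ y i ∧ ∀ j, j ≠ i → x j = y j

instance {m : ℕ} (x y : V m) : Decidable (Adj x y) := by
  unfold Adj; infer_instance

/-- parity of a vertex -/
def par {m : ℕ} (x : V m) : ZMod 2 := ∑ i, if x i then 1 else 0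

/-- insert the bit `b` in position `d` -/
def ins {m : ℕ} (d : Fin (m + 1)) (b : Bool) (x : V m) : V (m + 1) :=
  Fin.insertNth (α := fun _ => Bool) d b x

/-- forget the coordinate `d` -/
def rem {m : ℕ} (d : Fin (m + 1)) (x : V (m + 1)) : V m :=
  Fin.removeNth (α := fun _ => Bool) d x

lemma ins_rem {m : ℕ} (d : Fin (m + 1)) (x : V (m + 1)) : ins d (x d) (rem d x) = x :=
  Fin.insertNth_self_removeNth (α := fun _ => Bool) d x

lemma ins_rem' {m : ℕ} {d : Fin (m + 1)} {x : V (m + 1)} {b : Bool} (h : x d = b) :
    ins d b (rem d x) = x := by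
  subst h; exact ins_rem d x

@[simp] lemma rem_ins {m : ℕ} (d : Fin (m + 1)) (b : Bool) (x : V m) : rem d (ins d b x) = x :=
  Fin.removeNth_insertNth (α := fun _ => Bool) d b x

@[simp] lemma ins_same {m : ℕ} (d : Fin (m + 1)) (b : Bool) (x : V m) : ins d b x d = b := by
  simp [ins]

@[simp] lemma ins_succAbove {m : ℕ} (d : Fin (m + 1)) (b : Bool) (x : V m) (i : Fin m) :
    ins d b x (d.succAbove i) = x i := by
  simp [ins]

lemma ins_injective {m : ℕ} (d : Fin (m + 1)) (b : Bool) :
    Function.Injective (ins d b : V m → V (m + 1)) := by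
  intro x y h
  have := congrArg (rem d) h
  simpa using this

lemma ins_ne {m : ℕ} (d : Fin (m + 1)) {b b' : Bool} (h : b ≠ b') (x y : V m) :
    ins d b x ≠ ins d b' y := by
  intro e
  have := congrFun e d
  simp at this
  exact h this

lemma rem_injOn {m : ℕ} {d : Fin (m + 1)} {x y : V (m + 1)} (h : x d = y d)
    (h' : rem d x = rem d y) : x = y := by
  rw [← ins_rem d x, ← ins_rem d y, h, h']

lemma Adj.symm {m : ℕ} {x y : V m} (h : Adj x y) : Adj y x := by
  obtain ⟨i, h1, h2⟩ := h
  exact ⟨i, h1.symm, fun j hj => (h2 j hj).symm⟩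

lemma Adj.ne {m : ℕ} {x y : V m} (h : Adj x y) : x ≠ y := by
  obtain ⟨i, h1, h2⟩ := h
  intro e; exact h1 (congrFun e i)

lemma Adj.ins {m : ℕ} {x y : V m} (h : Adj x y) (d : Fin (m + 1)) (b : Bool) :
    Adj (ins d b x) (ins d b y) := by
  obtain ⟨i, h1, h2⟩ := h
  refine ⟨d.succAbove i, by simpa using h1, ?_⟩
  intro j hj
  rcases Fin.eq_self_or_eq_succAbove d j with rfl | ⟨k, rfl⟩
  · simp
  · simp only [ins_succAbove]
    apply h2
    intro e; exact hj (by rw [e])

lemma adj_ins_ins {m : ℕ} (d : Fin (m + 1)) {b b' : Bool} (h : b ≠ b') (x : V m) :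
    Adj (ins d b x) (ins d b' x) := by
  refine ⟨d, by simpa using h, ?_⟩
  intro j hj
  rcases Fin.eq_self_or_eq_succAbove d j with rfl | ⟨k, rfl⟩
  · exact absurd rfl hj
  · simp

lemma par_ins {m : ℕ} (d : Fin (m + 1)) (b : Bool) (x : V m) :
    par (ins d b x) = (if b then 1 else 0) + par x := by
  unfold par
  rw [Fin.sum_univ_succAbove _ d]
  simp

lemma par_rem {m : ℕ} (d : Fin (m + 1)) (x : V (m + 1)) :
    par x = (if x d then 1 else 0) + par (rem d x) := by
  conv_lhs => rw [← ins_rem d x]
  exact par_ins _ _ _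

/-- flip a coordinate -/
def flip {m : ℕ} (i : Fin m) (x : V m) : V m := Function.update x i (!x i)

lemma adj_flip {m : ℕ} (i : Fin m) (x : V m) : Adj x (flip i x) := by
  refine ⟨i, ?_, ?_⟩
  · simp [flip]
  · intro j hj; simp [flip, hj]

lemma adj_iff {m : ℕ} {x y : V m} : Adj x y ↔ ∃ i, y = flip i x := by
  constructor
  · rintro ⟨i, h1, h2⟩
    refine ⟨i, ?_⟩
    funext j
    by_cases hj : j = i
    · subst hj
      simp only [flip, Function.update_self]
      cases hx : x j <;> cases hy : y j <;> simp_all
    · simp [flip, hj, (h2 j hj)]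
  · rintro ⟨i, rfl⟩; exact adj_flip i x

lemma flip_injective {m : ℕ} (x : V m) : Function.Injective (fun i => flip i x) := by
  intro i j h
  by_contra hne
  have := congrFun h i
  simp [flip, hne] at this

lemma par_flip {m : ℕ} (i : Fin m) (x : V m) : par (flip i x) = par x + 1 := by
  unfold par
  rw [Finset.sum_eq_add_sum_sdiff_singleton_of_mem (Finset.mem_univ i),
    Finset.sum_eq_add_sum_sdiff_singleton_of_mem (Finset.mem_univ i) (f := fun j => if x j then (1 : ZMod 2) else 0)]
  have h2 : ∑ j ∈ (univ \ {i} : Finset (Fin m)), (if flip i x j = true then (1 : ZMod 2) else 0) =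
      ∑ j ∈ (univ \ {i} : Finset (Fin m)), (if x j = true then (1 : ZMod 2) else 0) := by
    apply Finset.sum_congr rfl
    intro j hj
    simp only [mem_sdiff, mem_univ, mem_singleton, true_and] at hj
    simp [flip, hj]
  rw [h2]
  have h3 : (if flip i x i = true then (1 : ZMod 2) else 0) = (if x i = true then (1 : ZMod 2) else 0) + 1 := by
    cases hx : x i <;> simp [flip, hx]
    decide
  rw [h3]; ring

lemma Adj.par {m : ℕ} {x y : V m} (h : Adj x y) : par y = par x + 1 := by
  obtain ⟨i, rfl⟩ := adj_iff.1 h
  exact par_flip i x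

/-- a path (list of distinct vertices, consecutive ones adjacent) from `s` to `t` with `n`
vertices -/
structure HP {m : ℕ} (l : List (V m)) (s t : V m) (n : ℕ) : Prop where
  chain : l.IsChain Adj
  nodup : l.Nodup
  head : l.head? = some s
  last : l.getLast? = some t
  len : l.length = n

lemma HP.single {m : ℕ} (s : V m) : HP [s] s s 1 := by
  constructor <;> simp

lemma HP.mem_head {m : ℕ} {l : List (V m)} {s t : V m} {n : ℕ} (h : HP l s t n) : s ∈ l :=
  List.mem_of_head? h.head

lemma HP.mem_last {m : ℕ} {l : List (V m)} {s t : V m} {n : ℕ} (h : HP l s t n) : t ∈ l :=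
  List.mem_of_getLast? h.last

lemma HP.ne_nil {m : ℕ} {l : List (V m)} {s t : V m} {n : ℕ} (h : HP l s t n) : l ≠ [] := by
  rintro rfl; simpa using h.head

lemma HP.append {m : ℕ} {l₁ l₂ : List (V m)} {s t u v : V m} {n k : ℕ}
    (h₁ : HP l₁ s t n) (h₂ : HP l₂ u v k) (hadj : Adj t u) (hd : l₁.Disjoint l₂) :
    HP (l₁ ++ l₂) s v (n + k) := by
  constructor
  · apply h₁.chain.append h₂.chain
    intro x hx y hy
    rw [h₁.last] at hx
    rw [h₂.head] at hy
    simp only [Option.mem_def, Option.some.injEq] at hx hy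
    subst hx; subst hy; exact hadj
  · exact List.nodup_append'.2 ⟨h₁.nodup, h₂.nodup, hd⟩
  · rw [List.head?_append, h₁.head]; rfl
  · rw [List.getLast?_append, h₂.last]; rfl
  · rw [List.length_append, h₁.len, h₂.len]

lemma HP.reverse {m : ℕ} {l : List (V m)} {s t : V m} {n : ℕ} (h : HP l s t n) :
    HP l.reverse t s n := by
  constructor
  · rw [List.isChain_reverse]
    exact h.chain.imp (fun a b hab => hab.symm)
  · exact List.nodup_reverse.2 h.nodup
  · rw [List.head?_reverse]; exact h.last
  · rw [List.getLast?_reverse]; exact h.head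
  · rw [List.length_reverse]; exact h.len

lemma HP.map {m m' : ℕ} {l : List (V m)} {s t : V m} {n : ℕ} (h : HP l s t n)
    (φ : V m → V m') (hi : Function.Injective φ) (ha : ∀ x y, Adj x y → Adj (φ x) (φ y)) :
    HP (l.map φ) (φ s) (φ t) n := by
  constructor
  · exact List.isChain_map_of_isChain φ ha h.chain
  · exact h.nodup.map hi
  · rw [List.head?_map, h.head]; rfl
  · rw [List.getLast?_map, h.last]; rfl
  · rw [List.length_map]; exact h.len

lemma HP.ins {m : ℕ} {l : List (V m)} {s t : V m} {n : ℕ} (h : HP l s t n)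
    (d : Fin (m + 1)) (b : Bool) :
    HP (l.map (Cube.ins d b)) (Cube.ins d b s) (Cube.ins d b t) n :=
  h.map _ (ins_injective d b) (fun _ _ hxy => hxy.ins d b)

lemma chain_par {m : ℕ} : ∀ (l : List (V m)) (s t : V m), l.IsChain Adj → l.head? = some s →
    l.getLast? = some t → par t = par s + l.length + 1
  | [], s, t, _, h, _ => by simp at h
  | [x], s, t, _, h1, h2 => by
      simp only [List.head?_cons, Option.some.injEq] at h1
      simp only [List.getLast?_singleton, Option.some.injEq] at h2
      subst h1; subst h2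
      have : (2 : ZMod 2) = 0 := by decide
      simp only [List.length_singleton, Nat.cast_one]
      linear_combination (-1 : ZMod 2) * this
  | x :: y :: l, s, t, hc, h1, h2 => by
      rw [List.isChain_cons_cons] at hc
      simp only [List.head?_cons, Option.some.injEq] at h1
      subst h1
      have ih := chain_par (y :: l) y t hc.2 rfl (by simpa using h2)
      rw [ih, hc.1.par]
      simp only [List.length_cons, Nat.cast_add, Nat.cast_one]
      ring

lemma HP.par {m : ℕ} {l : List (V m)} {s t : V m} {n : ℕ} (h : HP l s t n) :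
    par t = par s + n + 1 := by
  have := chain_par l s t h.chain h.head h.last
  rwa [h.len] at this

lemma HP.par_even {m : ℕ} {l : List (V m)} {s t : V m} {n : ℕ} (h : HP l s t n)
    (hn : Even n) : Cube.par t = Cube.par s + 1 := by
  have := h.par
  have h2 : (n : ZMod 2) = 0 := by
    rw [ZMod.natCast_eq_zero_iff]; exact hn.two_dvd
  rw [this, h2]; ring

lemma map_disjoint {m : ℕ} (d : Fin (m + 1)) {b b' : Bool} (h : b ≠ b') (l l' : List (V m)) :
    (l.map (ins d b)).Disjoint (l'.map (ins d b')) := by
  intro x hx hy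
  simp only [List.mem_map] at hx hy
  obtain ⟨u, _, rfl⟩ := hx
  obtain ⟨v, _, hv⟩ := hy
  exact ins_ne d h u v hv.symm

lemma map_disjoint_same {m : ℕ} (d : Fin (m + 1)) (b : Bool) {l l' : List (V m)}
    (h : l.Disjoint l') : (l.map (ins d b)).Disjoint (l'.map (ins d b)) := by
  intro x hx hy
  simp only [List.mem_map] at hx hy
  obtain ⟨u, hu, rfl⟩ := hx
  obtain ⟨v, hv, e⟩ := hy
  have := ins_injective d b e
  subst this
  exact h hu hv

lemma bool_par {b b' : Bool} (h : b ≠ b') :
    (if b then (1 : ZMod 2) else 0) = (if b' then 1 else 0) + 1 := by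
  cases b <;> cases b' <;> simp_all
  decide

lemma two_eq_zero : (2 : ZMod 2) = 0 := by decide

/-- **Havel's theorem**: in a cube of positive dimension any two vertices of opposite parity are
joined by a Hamiltonian path. -/
theorem havel : ∀ (m : ℕ) (s t : V (m + 1)), par t = par s + 1 →
    ∃ l, HP l s t (2 ^ (m + 1))
  | 0, s, t, h => by
      have h0 : s 0 ≠ t 0 := by
        intro e
        have : s = t := by
          funext i
          have : i = 0 := Fin.ext (by omega)
          rw [this, e]
        rw [this] at h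
        have h1 : (1 : ZMod 2) = 0 := by
          have := h; simp at this
        exact absurd h1 (by decide)
      have hadj : Adj s t := ⟨0, h0, fun j hj => absurd (Fin.ext (by omega)) hj⟩
      refine ⟨[s, t], ?_⟩
      constructor <;> simp [hadj, hadj.ne]
  | m + 1, s, t, h => by
      have hne : s ≠ t := by
        rintro rfl
        have h1 : (1 : ZMod 2) = 0 := by simp at h
        exact absurd h1 (by decide)
      obtain ⟨d, hd⟩ := Function.ne_iff.1 hne
      have hs := ins_rem d s
      have ht := ins_rem d t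
      have hps := par_rem d s
      have hpt := par_rem d t
      have hb := bool_par hd
      have hpp : par (rem d t) = par (rem d s) := by
        rw [hps, hpt] at h
        rw [hb] at h
        have h2 := two_eq_zero
        linear_combination h + (1 : ZMod 2) * h2
      obtain ⟨l₁, h₁⟩ := havel m (rem d s) (flip 0 (rem d s)) (par_flip _ _)
      obtain ⟨l₂, h₂⟩ := havel m (flip 0 (rem d s)) (rem d t) (by
        rw [par_flip, hpp]
        have h2 := two_eq_zero
        linear_combination (-1 : ZMod 2) * h2)
      refine ⟨l₁.map (ins d (s d)) ++ l₂.map (ins d (t d)), ?_⟩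
      have := (h₁.ins d (s d)).append (h₂.ins d (t d)) (adj_ins_ins d hd _)
        (map_disjoint d hd _ _)
      rw [hs, ht] at this
      have e : 2 ^ (m + 1 + 1) = 2 ^ (m + 1) + 2 ^ (m + 1) := by ring
      rw [e]
      exact this

/-- Hamiltonian path from a given vertex with end outside a small set -/
theorem one (m : ℕ) (s : V (m + 1)) (F : Finset (V (m + 1))) (hF : F.card ≤ m) :
    ∃ l t, HP l s t (2 ^ (m + 1)) ∧ t ∉ F := by
  have : ∃ i : Fin (m + 1), flip i s ∉ F := by
    by_contra hcon
    push Not at hcon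
    have h1 : (univ.image (fun i => flip i s)) ⊆ F := by
      intro x hx
      simp only [mem_image, mem_univ, true_and] at hx
      obtain ⟨i, rfl⟩ := hx
      exact hcon i
    have h2 := card_le_card h1
    rw [card_image_of_injective _ (flip_injective s), card_univ, Fintype.card_fin] at h2
    omega
  obtain ⟨i, hi⟩ := this
  obtain ⟨l, hl⟩ := havel m s (flip i s) (par_flip _ _)
  exact ⟨l, _, hl, hi⟩

end Pool.Agent.helper16.Cube
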