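import Mathlib

/-!
# Choice of the branch in the upper half and of the uncut branches
-/

namespace Pool.Agent.helper16.Cube

open Finset

variable {κ : Type*} [DecidableEq κ]

/-- the lower bound for the part of a branch remaining in the lower half -/
def low (n : ℕ) : ℕ := if n = 0 then 0 else if n % 2 = 1 then 1 else 2

lemma low_le_two (n : ℕ) : low n ≤ 2 := by unfold low; split_ifs <;> omega

lemma low_odd {n : ℕ} (h : n % 2 = 1) : low n = 1 := by unfold low; split_ifs <;> omega

lemma low_spec (n : ℕ) : ∃ A, n = low n + 2 * A := by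
  unfold low
  split_ifs with h1 h2
  · exact ⟨0, by omega⟩
  · exact ⟨n / 2, by omega⟩
  · exact ⟨n / 2 - 1, by omega⟩

lemma low_mod (n : ℕ) : low n % 2 = n % 2 := by
  unfold low; split_ifs <;> omega

lemma w_bound (n w : ℕ) (hn : 4 ≤ n) (h : (n + 1) * w + 2 ≤ 2 ^ (n + 2)) :
    w + 2 * (n - 2) ≤ 2 ^ n := by
  have hP : ∀ k, 4 ≤ k → k * k ≤ 2 ^ k := by
    intro k hk
    induction k, hk using Nat.le_induction with
    | base => norm_num
    | succ k hk ih => rw [pow_succ]; nlinarith
  have hPn := hP n hn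
  have h4 : 2 ^ (n + 2) = 4 * 2 ^ n := by ring
  rw [h4] at h
  generalize 2 ^ n = P at h hPn ⊢
  by_contra hcon
  push Not at hcon
  obtain ⟨k, rfl⟩ : ∃ k, n = k + 4 := ⟨n - 4, by omega⟩
  have e : k + 4 - 2 = k + 2 := by omega
  rw [e] at hcon
  rcases Nat.eq_zero_or_pos k with rfl | hk
  · norm_num at h hPn hcon; omega
  · have h5 : (k + 5) * P < (k + 5) * (w + 2 * (k + 2)) := by nlinarith
    nlinarith

lemma sum_mod_two (R : Finset κ) (f g : κ → ℕ) (h : ∀ i ∈ R, f i % 2 = g i % 2) :
    (∑ i ∈ R, f i) % 2 = (∑ i ∈ R, g i) % 2 := by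
  rw [sum_nat_mod, sum_nat_mod (f := g)]
  congr 1
  exact sum_congr rfl h

lemma choice (n : ℕ) (hn : 1 ≤ n) (T : Finset κ) (a : κ → ℕ) (hT : T.card = n + 1)
    (hsum : ∑ i ∈ T, a i + 1 = 2 ^ (n + 1))
    (hodd : ∃ j₀ ∈ T, a j₀ % 2 = 1 ∧ ∀ i ∈ T, i ≠ j₀ → a i % 2 = 0) :
    ∃ j ∈ T, a j % 2 = 0 ∧ a j ≤ 2 ^ n ∧ ∃ U ⊆ T.erase j,
      ∑ i ∈ U, a i + ∑ i ∈ (T.erase j) \ U, low (a i) + 1 ≤ 2 ^ n ∧
      (n ≤ 2 ∨ (n = 3 ∧ 1 ≤ U.card) ∨ (4 ≤ n ∧ 2 ≤ U.card)) := by
  obtain ⟨j₀, hj₀, ho, he⟩ := hodd
  have hpow : 2 ^ (n + 1) = 2 * 2 ^ n := by ring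
  have hpow1 : 2 ^ n = 2 * 2 ^ (n - 1) := by
    rw [← pow_succ']; congr 1; omega
  have hpos : 1 ≤ 2 ^ (n - 1) := Nat.one_le_two_pow
  -- two distinct elements have small sum
  have hpair : ∀ x ∈ T, ∀ y ∈ T, x ≠ y → a x + a y + 1 ≤ 2 ^ (n + 1) := by
    intro x hx y hy hxy
    have : ({x, y} : Finset κ) ⊆ T := by
      intro z hz
      rw [mem_insert, mem_singleton] at hz
      rcases hz with rfl | rfl
      · exact hx
      · exact hy
    have h1 : a x + a y ≤ ∑ i ∈ T, a i := by
      calc a x + a y = ∑ i ∈ ({x, y} : Finset κ), a i := (sum_pair hxy).symm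
        _ ≤ _ := sum_le_sum_of_subset this
    omega
  -- the even branches which are not too long
  have hcE : (T.erase j₀).card = n := by rw [card_erase_of_mem hj₀, hT]; omega
  have hEne : (T.filter (fun i => a i % 2 = 0 ∧ a i ≤ 2 ^ n)).Nonempty := by
    obtain ⟨i, hi⟩ : (T.erase j₀).Nonempty := by rw [← card_pos, hcE]; omega
    have hiT := mem_of_mem_erase hi
    have hine := ne_of_mem_erase hi
    by_cases h : a i ≤ 2 ^ n
    · exact ⟨i, mem_filter.2 ⟨hiT, he i hiT hine, h⟩⟩
    · rcases Nat.lt_or_ge n 2 with h2 | h2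
      · exfalso
        have : n = 1 := by omega
        subst this
        have h3 := hpair i hiT j₀ hj₀ hine
        have h4 := he i hiT hine
        norm_num at h3 h
        omega
      · have : 1 < (T.erase j₀).card := by omega
        obtain ⟨k, hk, hki⟩ := exists_mem_ne this i
        have hkT := mem_of_mem_erase hk
        refine ⟨k, mem_filter.2 ⟨hkT, he k hkT (ne_of_mem_erase hk), ?_⟩⟩
        have := hpair i hiT k hkT hki.symm
        omega
  obtain ⟨j, hj, hmax⟩ := exists_max_image _ a hEne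
  rw [mem_filter] at hj
  obtain ⟨hjT, hje, hjle⟩ := hj
  have hjj₀ : j ≠ j₀ := by rintro rfl; omega
  have hj₀R : j₀ ∈ T.erase j := mem_erase.2 ⟨hjj₀.symm, hj₀⟩
  have hRcard : (T.erase j).card = n := by rw [card_erase_of_mem hjT, hT]; omega
  have hRsum : a j + ∑ i ∈ T.erase j, a i + 1 = 2 ^ (n + 1) := by
    rw [add_sum_erase T a hjT]; exact hsum
  have hRT : T.erase j ⊆ T := erase_subset _ _
  refine ⟨j, hjT, hje, hjle, ?_⟩
  set R := T.erase j with hR
  have hRodd : (∑ i ∈ R, a i) % 2 = 1 := by omega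
  -- parity of the remaining sum
  have hpar : ∀ U ⊆ R, (∑ i ∈ U, a i + ∑ i ∈ R \ U, low (a i)) % 2 = 1 := by
    intro U hU
    have h1 := sum_mod_two (R \ U) (fun i => low (a i)) a (fun i _ => low_mod _)
    have h2 := sum_sdiff (f := a) hU
    omega
  rcases Nat.lt_or_ge n 3 with h3 | h3
  · refine ⟨∅, empty_subset _, ?_, Or.inl (by omega)⟩
    rw [sum_empty, sdiff_empty, ← add_sum_erase R _ hj₀R, low_odd ho]
    have h4 : ∑ i ∈ R.erase j₀, low (a i) ≤ (R.erase j₀).card * 2 :=
      sum_le_card_nsmul _ _ 2 (fun i _ => low_le_two _)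
    rw [card_erase_of_mem hj₀R, hRcard] at h4
    have : n = 1 ∨ n = 2 := by omega
    rcases this with rfl | rfl <;> norm_num at h4 ⊢ <;> omega
  · have hRne : R.Nonempty := ⟨j₀, hj₀R⟩
    obtain ⟨x, hx, hmin⟩ := exists_min_image R a hRne
    rcases Nat.lt_or_ge n 4 with h4 | h4
    · have hn3 : n = 3 := by omega
      subst hn3
      have hxR : ({x} : Finset κ) ⊆ R := singleton_subset_iff.2 hx
      refine ⟨{x}, hxR, ?_, Or.inr (Or.inl ⟨rfl, by simp⟩)⟩
      have h5 := hpar {x} hxR
      have h6 : ∑ i ∈ R \ {x}, low (a i) ≤ (R \ {x}).card * 2 :=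
        sum_le_card_nsmul _ _ 2 (fun i _ => low_le_two _)
      rw [card_sdiff_of_subset hxR, card_singleton, hRcard] at h6
      rw [sum_singleton] at h5 ⊢
      -- `a x ≤ 4`
      have h7 : a x ≤ 4 := by
        by_contra hcon
        push Not at hcon
        have h8 : ∀ i ∈ R.erase j₀, 6 ≤ a i := by
          intro i hi
          have := hmin i (mem_of_mem_erase hi)
          have := he i (hRT (mem_of_mem_erase hi)) (ne_of_mem_erase hi)
          omega
        have h9 : (R.erase j₀).card • 6 ≤ ∑ i ∈ R.erase j₀, a i :=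
          card_nsmul_le_sum _ _ 6 h8
        rw [card_erase_of_mem hj₀R, hRcard, smul_eq_mul] at h9
        have h10 := add_sum_erase R a hj₀R
        have h11 := hmin j₀ hj₀R
        norm_num at hRsum h9
        omega
      norm_num at h6 ⊢
      omega
    · have hxc : 1 < R.card := by omega
      have hRx : (R.erase x).Nonempty := by
        rw [← card_pos, card_erase_of_mem hx]; omega
      obtain ⟨y, hy, hminy⟩ := exists_min_image (R.erase x) a hRx
      have hyR := mem_of_mem_erase hy
      have hyx := ne_of_mem_erase hy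
      have hxyR : ({x, y} : Finset κ) ⊆ R := by
        intro z hz
        rw [mem_insert, mem_singleton] at hz
        rcases hz with rfl | rfl
        · exact hx
        · exact hyR
      have hcU : ({x, y} : Finset κ).card = 2 := card_pair hyx.symm
      refine ⟨{x, y}, hxyR, ?_, Or.inr (Or.inr ⟨h4, by omega⟩)⟩
      have h5 := hpar {x, y} hxyR
      have h6 : ∑ i ∈ R \ {x, y}, low (a i) ≤ (R \ {x, y}).card * 2 :=
        sum_le_card_nsmul _ _ 2 (fun i _ => low_le_two _)
      rw [card_sdiff_of_subset hxyR, hcU, hRcard] at h6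
      rw [sum_pair hyx.symm] at h5 ⊢
      have hxy : a x ≤ a y := hmin y hyR
      -- (1)
      have g1 : n * (a x + a y) ≤ 2 * ∑ i ∈ R, a i := by
        have k1 : (R \ {x, y}).card • (a y) ≤ ∑ i ∈ R \ {x, y}, a i := by
          apply card_nsmul_le_sum
          intro i hi
          rw [mem_sdiff, mem_insert, mem_singleton, not_or] at hi
          exact hminy i (mem_erase.2 ⟨hi.2.1, hi.1⟩)
        rw [card_sdiff_of_subset hxyR, hcU, hRcard, smul_eq_mul] at k1
        have k2 := sum_sdiff (f := a) hxyR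
        rw [sum_pair hyx.symm] at k2
        have k3 : (n - 2) * (a x + a y) ≤ 2 * ((n - 2) * a y) := by
          have : a x + a y ≤ 2 * a y := by omega
          calc (n - 2) * (a x + a y) ≤ (n - 2) * (2 * a y) := Nat.mul_le_mul_left _ this
            _ = 2 * ((n - 2) * a y) := by ring
        have k4 : n * (a x + a y) = (n - 2) * (a x + a y) + 2 * (a x + a y) := by
          rw [← add_mul]; congr 1; omega
        omega
      -- (2)
      have g2 : a y ≤ a j := by
        have hlong : ((R.erase j₀).filter (fun i => 2 ^ n < a i)).card ≤ 1 := by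
          rw [card_le_one]
          intro p hp q hq
          rw [mem_filter] at hp hq
          by_contra hpq
          have := hpair p (hRT (mem_of_mem_erase hp.1)) q (hRT (mem_of_mem_erase hq.1)) hpq
          omega
        have hreg : 1 < ((R.erase j₀).filter (fun i => ¬ 2 ^ n < a i)).card := by
          have := card_filter_add_card_filter_not (s := R.erase j₀) (fun i => 2 ^ n < a i)
          rw [card_erase_of_mem hj₀R, hRcard] at this
          omega
        obtain ⟨q, hq, hqx⟩ := exists_mem_ne hreg x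
        rw [mem_filter] at hq
        have hqR := mem_of_mem_erase hq.1
        have k1 := hminy q (mem_erase.2 ⟨hqx, hqR⟩)
        have k2 := hmax q (mem_filter.2 ⟨hRT hqR, he q (hRT hqR) (ne_of_mem_erase hq.1), by omega⟩)
        omega
      have g3 := w_bound n (a x + a y) h4 (by
        have k5 : (n + 1) * (a x + a y) = n * (a x + a y) + (a x + a y) := by ring
        have k6 : 2 ^ (n + 2) = 2 * 2 ^ (n + 1) := by ring
        omega)
      omega

end Pool.Agent.helper16.Cube
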