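import Mathlib

/-!
# Cutting numbers
-/

namespace Pool.Agent.helper16.Cube

open Finset

variable {κ : Type*} [DecidableEq κ]

/-- any total up to `∑ A` is a sum of numbers bounded by `A` -/
lemma exists_sub (C : Finset κ) (A : κ → ℕ) (t : ℕ) (h : t ≤ ∑ i ∈ C, A i) :
    ∃ c : κ → ℕ, (∀ i ∈ C, c i ≤ A i) ∧ ∑ i ∈ C, c i = t := by
  induction C using Finset.induction_on generalizing t with
  | empty =>
      refine ⟨fun _ => 0, by simp, ?_⟩
      simp at h ⊢; exact h.symm
  | insert x C hx ih =>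
      rw [sum_insert hx] at h
      obtain ⟨c, hc, hs⟩ := ih (t - A x) (by omega)
      refine ⟨fun i => if i = x then min t (A x) else c i, ?_, ?_⟩
      · intro i hi
        by_cases hix : i = x
        · subst hix; simp
        · simp only [hix, if_false]
          exact hc i ((mem_insert.1 hi).resolve_left hix)
      · rw [sum_insert hx]
        have : ∑ i ∈ C, (if i = x then min t (A x) else c i) = ∑ i ∈ C, c i := by
          apply sum_congr rfl
          intro i hi
          have : i ≠ x := fun e => hx (e ▸ hi)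
          simp [this]
        rw [this, hs]
        simp only [if_true]
        omega

/-- cutting with prescribed lower bounds and parities -/
lemma cut (T U : Finset κ) (hU : U ⊆ T) (a r : κ → ℕ) (t : ℕ)
    (hr : ∀ i ∈ T \ U, ∃ A, a i = r i + 2 * A)
    (h1 : ∑ i ∈ U, a i + ∑ i ∈ T \ U, r i ≤ t) (h2 : t ≤ ∑ i ∈ T, a i)
    (h3 : ∃ q, ∑ i ∈ T, a i = t + 2 * q) :
    ∃ b : κ → ℕ, (∀ i ∈ U, b i = a i) ∧
      (∀ i ∈ T \ U, r i ≤ b i ∧ b i ≤ a i ∧ ∃ q, a i = b i + 2 * q) ∧ ∑ i ∈ T, b i = t := by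
  choose! A hA using hr
  have e1 : ∑ i ∈ T, a i = ∑ i ∈ T \ U, a i + ∑ i ∈ U, a i := (sum_sdiff hU).symm
  have e2 : ∑ i ∈ T \ U, a i = ∑ i ∈ T \ U, r i + 2 * ∑ i ∈ T \ U, A i := by
    rw [mul_sum, ← sum_add_distrib]
    exact sum_congr rfl hA
  obtain ⟨q, hq⟩ := h3
  obtain ⟨c, hc, hs⟩ := exists_sub (T \ U) A ((t - ∑ i ∈ U, a i - ∑ i ∈ T \ U, r i) / 2) (by omega)
  refine ⟨fun i => if i ∈ U then a i else r i + 2 * c i, ?_, ?_, ?_⟩
  · intro i hi; simp [hi]
  · intro i hi
    have hiU : i ∉ U := (mem_sdiff.1 hi).2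
    simp only [hiU, if_false]
    have := hA i hi
    have := hc i hi
    refine ⟨by omega, by omega, A i - c i, by omega⟩
  · rw [← sum_sdiff hU]
    have e3 : ∑ i ∈ T \ U, (if i ∈ U then a i else r i + 2 * c i) =
        ∑ i ∈ T \ U, r i + 2 * ∑ i ∈ T \ U, c i := by
      rw [mul_sum, ← sum_add_distrib]
      apply sum_congr rfl
      intro i hi
      have hiU : i ∉ U := (mem_sdiff.1 hi).2
      simp [hiU]
    have e4 : ∑ i ∈ U, (if i ∈ U then a i else r i + 2 * c i) = ∑ i ∈ U, a i := by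
      apply sum_congr rfl
      intro i hi
      simp [hi]
    rw [e3, e4, hs]
    omega

end Pool.Agent.helper16.Cube
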