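import Pool.Agent.helper16.Cube.TwoPaths
import Pool.Agent.helper16.Cube.Cut

/-!
# Many paths in a cube
-/

namespace Pool.Agent.helper16.Cube

open Finset

variable {κ : Type*} [DecidableEq κ]

/-- `k` disjoint paths in the `m`-cube with prescribed distinct starts and even lengths of total
`2 ^ m`, each end avoiding its own set of at most `f` vertices -/
def Many (κ : Type*) [DecidableEq κ] (m f k : ℕ) : Prop :=
  ∀ (T : Finset κ) (s : κ → V m) (a : κ → ℕ) (F : κ → Finset (V m)), T.card = k →
    Set.InjOn s T → (∀ i ∈ T, Even (a i)) → (∀ i ∈ T, 2 ≤ a i) → ∑ i ∈ T, a i = 2 ^ m →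
    (∀ i ∈ T, (F i).card ≤ f) →
    ∃ (P : κ → List (V m)) (e : κ → V m), (∀ i ∈ T, HP (P i) (s i) (e i) (a i)) ∧
      (∀ i ∈ T, e i ∉ F i) ∧ ∀ i ∈ T, ∀ j ∈ T, i ≠ j → (P i).Disjoint (P j)

lemma many_one (m f : ℕ) (hf : f ≤ m) : Many κ (m + 1) f 1 := by
  intro T s a F hT hs ha h2 hsum hF
  obtain ⟨x, rfl⟩ := card_eq_one.1 hT
  simp only [sum_singleton] at hsum
  obtain ⟨l, t, hl, ht⟩ := one m (s x) (F x) ((hF x (mem_singleton_self x)).trans hf)
  refine ⟨fun _ => l, fun _ => t, ?_, ?_, ?_⟩
  · intro i hi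
    rw [mem_singleton] at hi
    subst hi
    rw [hsum]; exact hl
  · intro i hi
    rw [mem_singleton] at hi
    subst hi
    exact ht
  · intro i hi j hj hij
    rw [mem_singleton] at hi hj
    exact absurd (hi.trans hj.symm) hij

lemma many_two (m f : ℕ) (hf : f ≤ m) : Many κ (m + 2) f 2 := by
  intro T s a F hT hs ha h2 hsum hF
  obtain ⟨x, y, hxy, rfl⟩ := card_eq_two.1 hT
  rw [sum_pair hxy] at hsum
  have hx : x ∈ ({x, y} : Finset κ) := by simp
  have hy : y ∈ ({x, y} : Finset κ) := by simp
  obtain ⟨l₁, l₂, t₁, t₂, p₁, p₂, hd, ht₁, ht₂⟩ := two m (s x) (s y) (a x) (a y) (F x) (F y)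
    (fun e => hxy (hs (by simp) (by simp) e)) (ha x hx) (ha y hy) (h2 x hx) (h2 y hy) hsum
    ((hF x hx).trans hf) ((hF y hy).trans hf)
  have hyx : y ≠ x := hxy.symm
  refine ⟨fun i => if i = x then l₁ else l₂, fun i => if i = x then t₁ else t₂, ?_, ?_, ?_⟩
  · intro i hi
    rw [mem_insert, mem_singleton] at hi
    rcases hi with rfl | rfl
    · simpa using p₁
    · simpa [hyx] using p₂
  · intro i hi
    rw [mem_insert, mem_singleton] at hi
    rcases hi with rfl | rfl
    · simpa using ht₁
    · simpa [hyx] using ht₂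
  · intro i hi j hj hij
    rw [mem_insert, mem_singleton] at hi hj
    rcases hi with rfl | rfl <;> rcases hj with rfl | rfl
    · exact absurd rfl hij
    · simpa [hyx] using hd
    · simpa [hyx] using hd.symm
    · exact absurd rfl hij

lemma pow_bound (M : ℕ) (h : 4 ≤ M) : 6 * M ≤ 2 ^ M + 14 := by
  induction M, h using Nat.le_induction with
  | base => norm_num
  | succ k hk ih =>
      rw [pow_succ]
      have : 8 ≤ 2 ^ k := by
        calc 8 = 2 ^ 3 := by norm_num
          _ ≤ 2 ^ k := Nat.pow_le_pow_right (by norm_num) (by omega)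
      omega

/-- choice of the splitting direction and of the cuts -/
lemma split_choice (M k f : ℕ) (hk : 3 ≤ k) (hf : 1 ≤ f) (hkf : k + f ≤ M + 1)
    (T : Finset κ) (s : κ → V (M + 1)) (a : κ → ℕ) (hT : T.card = k) (hs : Set.InjOn s T)
    (ha : ∀ i ∈ T, Even (a i)) (h2 : ∀ i ∈ T, 2 ≤ a i) (hsum : ∑ i ∈ T, a i = 2 ^ (M + 1)) :
    ∃ (d : Fin (M + 1)) (β : Bool) (b : κ → ℕ),
      (T.filter (fun i => s i d = β)).Nonempty ∧ (T.filter (fun i => ¬ s i d = β)).Nonempty ∧
      (∀ i ∈ T.filter (fun i => s i d = β), 2 ≤ b i ∧ b i ≤ a i ∧ Even (b i) ∧ Even (a i - b i)) ∧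
      ∑ i ∈ T.filter (fun i => s i d = β), b i = 2 ^ M ∧
      (∃ i ∈ T.filter (fun i => s i d = β), b i = a i) := by
  classical
  have hTne : T.Nonempty := by rw [← card_pos]; omega
  obtain ⟨ℓ, hℓ, hmax⟩ := exists_max_image T a hTne
  have hcard : 1 < (T.erase ℓ).card := by rw [card_erase_of_mem hℓ]; omega
  obtain ⟨i₀, hi₀, j₀, hj₀, hij⟩ := one_lt_card.1 hcard
  have hi₀T := mem_of_mem_erase hi₀
  have hj₀T := mem_of_mem_erase hj₀
  have hne : s i₀ ≠ s j₀ := fun e => hij (hs hi₀T hj₀T e)
  obtain ⟨d, hd⟩ := Function.ne_iff.1 hne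
  have hpow : 2 ^ (M + 1) = 2 ^ M + 2 ^ M := by ring
  -- the two halves
  have hsplit : ∀ β : Bool, ∑ i ∈ T.filter (fun i => s i d = β), a i +
      ∑ i ∈ T.filter (fun i => ¬ s i d = β), a i = 2 ^ M + 2 ^ M := by
    intro β; rw [sum_filter_add_sum_filter_not, hsum, hpow]
  have hcsplit : ∀ β : Bool, (T.filter (fun i => s i d = β)).card +
      (T.filter (fun i => ¬ s i d = β)).card = k := by
    intro β; rw [card_filter_add_card_filter_not, hT]
  -- some half is in excess
  have hβ : ∃ β : Bool, 2 ^ M ≤ ∑ i ∈ T.filter (fun i => s i d = β), a i := by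
    by_contra hcon
    push Not at hcon
    have h1 := hcon true
    have h0 := hcon false
    have h3 := hsplit true
    have h4 : ∑ i ∈ T.filter (fun i => ¬ s i d = true), a i =
        ∑ i ∈ T.filter (fun i => s i d = false), a i := by
      congr 1
      ext i
      simp
    omega
  obtain ⟨β, hβ⟩ := hβ
  have hn1 : (T.filter (fun i => s i d = β)).Nonempty := by
    by_cases h : s i₀ d = β
    · exact ⟨i₀, mem_filter.2 ⟨hi₀T, h⟩⟩
    · refine ⟨j₀, mem_filter.2 ⟨hj₀T, ?_⟩⟩
      revert hd h
      cases s i₀ d <;> cases s j₀ d <;> cases β <;> simp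
  have hn2 : (T.filter (fun i => ¬ s i d = β)).Nonempty := by
    by_cases h : s i₀ d = β
    · refine ⟨j₀, mem_filter.2 ⟨hj₀T, ?_⟩⟩
      rw [← h]; exact hd.symm
    · exact ⟨i₀, mem_filter.2 ⟨hi₀T, h⟩⟩
  set T₀ := T.filter (fun i => s i d = β) with hT₀
  set T₁ := T.filter (fun i => ¬ s i d = β) with hT₁
  have hT₀T : T₀ ⊆ T := filter_subset _ _
  have hT₁T : T₁ ⊆ T := filter_subset _ _
  have hs1 : ∑ i ∈ T₀, a i + ∑ i ∈ T₁, a i = 2 ^ M + 2 ^ M := hsplit β
  have hc1 : T₀.card + T₁.card = k := hcsplit β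
  have hβ' : 2 ^ M ≤ ∑ i ∈ T₀, a i := hβ
  have hT₁pos : 1 ≤ T₁.card := card_pos.2 hn2
  have hL₁ : 2 * T₁.card ≤ ∑ i ∈ T₁, a i := by
    have : T₁.card • 2 ≤ ∑ i ∈ T₁, a i := card_nsmul_le_sum T₁ a 2 (fun i hi => h2 i (hT₁T hi))
    rw [smul_eq_mul] at this; omega
  refine ⟨d, β, ?_⟩
  rcases Nat.lt_or_ge (2 ^ M) (∑ i ∈ T₀, a i) with hlt | hge
  · -- real excess
    have hk0 : 2 ≤ T₀.card := by
      by_contra hcon
      have h1 : T₀.card = 1 := by
        have := card_pos.2 hn1
        omega
      obtain ⟨p, hp⟩ := card_eq_one.1 h1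
      have hpT : p ∈ T := hT₀T (hp ▸ mem_singleton_self p)
      rw [hp, sum_singleton] at hlt
      by_cases hpl : p = ℓ
      · -- the long one is alone, impossible: `i₀` or `j₀` is with it
        have h3 : i₀ ∈ T₀ ∨ j₀ ∈ T₀ := by
          by_cases h : s i₀ d = β
          · left; exact mem_filter.2 ⟨hi₀T, h⟩
          · right
            refine mem_filter.2 ⟨hj₀T, ?_⟩
            revert hd h
            cases s i₀ d <;> cases s j₀ d <;> cases β <;> simp
        rcases h3 with h3 | h3
        · rw [hp, mem_singleton] at h3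
          rw [h3, hpl] at hi₀
          simp at hi₀
        · rw [hp, mem_singleton] at h3
          rw [h3, hpl] at hj₀
          simp at hj₀
      · have h4 := hmax p hpT
        have h5 : a p + a ℓ ≤ ∑ i ∈ T, a i := by
          have : ({p, ℓ} : Finset κ) ⊆ T := by
            intro x hx
            rw [mem_insert, mem_singleton] at hx
            rcases hx with rfl | rfl
            · exact hpT
            · exact hℓ
          calc a p + a ℓ = ∑ i ∈ ({p, ℓ} : Finset κ), a i := (sum_pair hpl).symm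
            _ ≤ _ := sum_le_sum_of_subset this
        omega
    obtain ⟨x, hx, hmin⟩ := exists_min_image T₀ a hn1
    have hxe := ha x (hT₀T hx)
    have hx2 := h2 x (hT₀T hx)
    have hx3 : T₀.card * a x ≤ ∑ i ∈ T₀, a i := by
      have := card_nsmul_le_sum T₀ a (a x) hmin
      rwa [smul_eq_mul] at this
    have hx4 : a x + 2 * (T₀.card - 1) ≤ 2 ^ M := by
      have hM : 4 ≤ M + 1 := by omega
      have hMe : ∃ q, 2 ^ M = 2 * q := ⟨2 ^ (M - 1), by
        rw [← pow_succ']; congr 1; omega⟩
      obtain ⟨q, hq⟩ := hMe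
      obtain ⟨y, hy⟩ := hxe
      rcases Nat.lt_or_ge T₀.card 3 with h3 | h3
      · have h4 : T₀.card = 2 := by omega
        rw [h4] at hx3 ⊢
        omega
      · have h5 : 3 * a x ≤ T₀.card * a x := Nat.mul_le_mul_right _ h3
        have h6 := pow_bound M (by omega)
        omega
    have hcut := cut T₀ {x} (singleton_subset_iff.2 hx) a (fun _ => 2) (2 ^ M)
      (by
        intro i hi
        have hiT := hT₀T (mem_sdiff.1 hi).1
        obtain ⟨y, hy⟩ := ha i hiT
        have := h2 i hiT
        exact ⟨y - 1, by omega⟩)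
      (by
        rw [sum_singleton, sum_const, smul_eq_mul, card_sdiff_of_subset (singleton_subset_iff.2 hx),
          card_singleton]
        omega)
      hβ
      (by
        have h7 : Even (∑ i ∈ T₀, a i) := by
          apply even_sum; intro i hi; exact ha i (hT₀T hi)
        obtain ⟨y, hy⟩ := h7
        have hMe : 2 ^ M = 2 * 2 ^ (M - 1) := by
          rw [← pow_succ']; congr 1; omega
        exact ⟨y - 2 ^ (M - 1), by omega⟩)
    obtain ⟨b, hb1, hb2, hb3⟩ := hcut
    refine ⟨b, hn1, hn2, ?_, hb3, x, hx, hb1 x (mem_singleton_self x)⟩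
    intro i hi
    by_cases hix : i = x
    · subst hix
      have := hb1 i (mem_singleton_self i)
      rw [this]
      exact ⟨h2 i (hT₀T hi), le_rfl, ha i (hT₀T hi), by simp⟩
    · obtain ⟨g1, g2, q, g3⟩ := hb2 i (mem_sdiff.2 ⟨hi, by simpa using hix⟩)
      obtain ⟨y, hy⟩ := ha i (hT₀T hi)
      refine ⟨g1, g2, ?_, ?_⟩
      · exact ⟨y - q, by omega⟩
      · exact ⟨q, by omega⟩
  · -- no excess
    refine ⟨a, hn1, hn2, ?_, le_antisymm hge hβ', ?_⟩
    · intro i hi
      exact ⟨h2 i (hT₀T hi), le_rfl, ha i (hT₀T hi), by simp⟩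
    · obtain ⟨x, hx⟩ := hn1
      exact ⟨x, hx, rfl⟩

/-- the induction step -/
lemma many_step (M k f : ℕ) (hk : 3 ≤ k) (hf : 1 ≤ f) (hkf : k + f ≤ M + 1)
    (ih : ∀ k' f', 1 ≤ k' → 1 ≤ f' → k' + f' ≤ M → Many κ M f' k') : Many κ (M + 1) f k := by
  classical
  intro T s a F hT hs ha h2 hsum hF
  obtain ⟨d, β, b, hn0, hn1, hb, hbsum, x₀, hx₀, hx₀b⟩ :=
    split_choice M k f hk hf hkf T s a hT hs ha h2 hsum
  set T₀ := T.filter (fun i => s i d = β) with hT₀
  set T₁ := T.filter (fun i => ¬ s i d = β) with hT₁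
  have hT₀T : T₀ ⊆ T := filter_subset _ _
  have hT₁T : T₁ ⊆ T := filter_subset _ _
  have hcard : T₀.card + T₁.card = k := by
    rw [hT₀, hT₁, card_filter_add_card_filter_not, hT]
  have hc0 : 1 ≤ T₀.card := card_pos.2 hn0
  have hc1 : 1 ≤ T₁.card := card_pos.2 hn1
  have hd01 : Disjoint T₀ T₁ := disjoint_filter_filter_not _ _ _
  have hββ : β ≠ !β := by cases β <;> simp
  have hs0 : ∀ i ∈ T₀, s i d = β := fun i hi => (mem_filter.1 hi).2
  have hs1 : ∀ i ∈ T₁, s i d = !β := by
    intro i hi
    have := (mem_filter.1 hi).2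
    revert this
    cases s i d <;> cases β <;> simp
  -- the first half
  have ih0 := ih T₀.card (max f T₁.card) hc0 (le_max_of_le_left hf)
    (by rcases max_cases f T₁.card with ⟨h, _⟩ | ⟨h, _⟩ <;> rw [h] <;> omega)
  obtain ⟨P₀, e₀, hP₀, he₀, hD₀⟩ := ih0 T₀ (fun i => rem d (s i)) b
    (fun i => if b i < a i then T₁.image (fun j => rem d (s j)) else (F i).image (rem d)) rfl
    (by
      intro i hi j hj hij
      exact hs (hT₀T hi) (hT₀T hj) (rem_injOn ((hs0 i hi).trans (hs0 j hj).symm) hij))
    (fun i hi => (hb i hi).2.2.1) (fun i hi => (hb i hi).1) hbsum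
    (by
      intro i hi
      by_cases h : b i < a i
      · simp only [h, if_true]
        exact le_trans card_image_le (le_max_right _ _)
      · simp only [h, if_false]
        exact le_trans card_image_le (le_trans (hF i (hT₀T hi)) (le_max_left _ _)))
  -- the second half
  set C := T₀.filter (fun i => b i < a i) with hC
  have hCT : C ⊆ T₀ := filter_subset _ _
  have hCcard : C.card + 1 ≤ T₀.card := by
    have : C ⊂ T₀ := by
      rw [hC, filter_ssubset]
      exact ⟨x₀, hx₀, by omega⟩
    exact card_lt_card this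
  have hdC : Disjoint C T₁ := disjoint_of_subset_left hCT hd01
  have hCn : ∀ i ∈ T₁, i ∉ C := fun i hi hi' => (disjoint_left.1 hdC) hi' hi
  have hCe : ∀ i ∈ C, ∀ j ∈ T₁, e₀ i ≠ rem d (s j) := by
    intro i hi j hj e
    have h1 := he₀ i (hCT hi)
    have h2 : b i < a i := (mem_filter.1 hi).2
    simp only [h2, if_true] at h1
    exact h1 (mem_image.2 ⟨j, hj, e.symm⟩)
  have hcu : (C ∪ T₁).card = C.card + T₁.card := card_union_of_disjoint hdC
  have ih1 := ih (C ∪ T₁).card f (by omega) hf (by omega)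
  have hsumC : ∑ i ∈ C, (a i - b i) = ∑ i ∈ T₀, (a i - b i) := by
    apply sum_subset hCT
    intro i hi hi'
    have : ¬ b i < a i := fun h => hi' (mem_filter.2 ⟨hi, h⟩)
    omega
  have hsum0 : ∑ i ∈ T₀, (a i - b i) + ∑ i ∈ T₀, b i = ∑ i ∈ T₀, a i := by
    rw [← sum_add_distrib]
    apply sum_congr rfl
    intro i hi
    have := (hb i hi).2.1
    omega
  have hsumT : ∑ i ∈ T₀, a i + ∑ i ∈ T₁, a i = 2 ^ (M + 1) := by
    rw [← hsum, hT₀, hT₁, sum_filter_add_sum_filter_not]
  obtain ⟨P₁, e₁, hP₁, he₁, hD₁⟩ := ih1 (C ∪ T₁)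
    (fun i => if i ∈ C then e₀ i else rem d (s i))
    (fun i => if i ∈ C then a i - b i else a i) (fun i => (F i).image (rem d)) rfl
    (by
      intro i hi j hj hij
      rw [mem_coe, mem_union] at hi hj
      simp only at hij
      rcases hi with hi | hi <;> rcases hj with hj | hj
      · simp only [hi, hj, if_true] at hij
        by_contra hne
        have h1 := (hP₀ i (hCT hi)).mem_last
        have h2 := (hP₀ j (hCT hj)).mem_last
        rw [← hij] at h2
        exact hD₀ i (hCT hi) j (hCT hj) hne h1 h2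
      · simp only [hi, hCn j hj, if_true, if_false] at hij
        exact absurd hij (hCe i hi j hj)
      · simp only [hj, hCn i hi, if_true, if_false] at hij
        exact absurd hij.symm (hCe j hj i hi)
      · simp only [hCn i hi, hCn j hj, if_false] at hij
        exact hs (hT₁T hi) (hT₁T hj) (rem_injOn ((hs1 i hi).trans (hs1 j hj).symm) hij))
    (by
      intro i hi
      rw [mem_union] at hi
      rcases hi with hi | hi
      · simp only [hi, if_true]
        exact (hb i (hCT hi)).2.2.2
      · simp only [hCn i hi, if_false]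
        exact ha i (hT₁T hi))
    (by
      intro i hi
      rw [mem_union] at hi
      rcases hi with hi | hi
      · simp only [hi, if_true]
        obtain ⟨q, hq⟩ := (hb i (hCT hi)).2.2.2
        have : b i < a i := (mem_filter.1 hi).2
        omega
      · simp only [hCn i hi, if_false]
        exact h2 i (hT₁T hi))
    (by
      rw [sum_union hdC]
      have g1 : ∑ i ∈ C, (if i ∈ C then a i - b i else a i) = ∑ i ∈ C, (a i - b i) := by
        apply sum_congr rfl; intro i hi; simp [hi]
      have g2 : ∑ i ∈ T₁, (if i ∈ C then a i - b i else a i) = ∑ i ∈ T₁, a i := by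
        apply sum_congr rfl; intro i hi; simp [hCn i hi]
      rw [g1, g2, hsumC]
      have : 2 ^ (M + 1) = 2 ^ M + 2 ^ M := by ring
      omega)
    (by
      intro i hi
      refine le_trans card_image_le (hF i ?_)
      rw [mem_union] at hi
      rcases hi with hi | hi
      · exact hT₀T (hCT hi)
      · exact hT₁T hi)
  -- glueing
  refine ⟨fun i => (if i ∈ T₀ then P₀ i else []).map (ins d β) ++
      (if i ∈ C ∪ T₁ then P₁ i else []).map (ins d (!β)),
    fun i => if i ∈ C ∪ T₁ then ins d (!β) (e₁ i) else ins d β (e₀ i), ?_, ?_, ?_⟩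
  · intro i hi
    have hi' : i ∈ T₀ ∨ i ∈ T₁ := by
      by_cases h : s i d = β
      · left; exact mem_filter.2 ⟨hi, h⟩
      · right; exact mem_filter.2 ⟨hi, h⟩
    rcases hi' with hi' | hi'
    · by_cases hiC : i ∈ C
      · have hiU : i ∈ C ∪ T₁ := mem_union_left _ hiC
        simp only [hi', hiU, if_true]
        have q0 := (hP₀ i hi').ins d β
        have q1 := (hP₁ i hiU).ins d (!β)
        simp only [hiC, if_true] at q1
        have q := q0.append q1 (adj_ins_ins d hββ _) (map_disjoint d hββ _ _)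
        rw [ins_rem' (hs0 i hi')] at q
        have : b i + (a i - b i) = a i := by have := (hb i hi').2.1; omega
        rw [this] at q
        exact q
      · have hiU : i ∉ C ∪ T₁ := by
          rw [mem_union, not_or]
          exact ⟨hiC, fun h => (disjoint_left.1 hd01) hi' h⟩
        simp only [hi', hiU, if_true, if_false, List.map_nil, List.append_nil]
        have q0 := (hP₀ i hi').ins d β
        rw [ins_rem' (hs0 i hi')] at q0
        have : b i = a i := by
          have h1 := (hb i hi').2.1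
          have h2 : ¬ b i < a i := fun h => hiC (mem_filter.2 ⟨hi', h⟩)
          omega
        rw [this] at q0
        exact q0
    · have hiU : i ∈ C ∪ T₁ := mem_union_right _ hi'
      have hi0 : i ∉ T₀ := fun h => (disjoint_left.1 hd01) h hi'
      simp only [hi0, hiU, if_true, if_false, List.map_nil, List.nil_append]
      have q1 := (hP₁ i hiU).ins d (!β)
      simp only [hCn i hi', if_false] at q1
      rw [ins_rem' (hs1 i hi')] at q1
      exact q1
  · intro i hi
    by_cases hiU : i ∈ C ∪ T₁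
    · simp only [hiU, if_true]
      exact not_mem_of_rem (he₁ i hiU)
    · simp only [hiU, if_false]
      have hi0 : i ∈ T₀ := by
        by_contra h
        exact hiU (mem_union_right _ (mem_filter.2 ⟨hi, fun h' => h (mem_filter.2 ⟨hi, h'⟩)⟩))
      have h1 := he₀ i hi0
      have h2 : ¬ b i < a i := fun h => hiU (mem_union_left _ (mem_filter.2 ⟨hi0, h⟩))
      simp only [h2, if_false] at h1
      exact not_mem_of_rem h1
  · intro i hi j hj hij
    have hA : (if i ∈ T₀ then P₀ i else []).Disjoint (if j ∈ T₀ then P₀ j else []) := by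
      by_cases h1 : i ∈ T₀ <;> by_cases h2 : j ∈ T₀ <;> simp [h1, h2]
      exact hD₀ i h1 j h2 hij
    have hB : (if i ∈ C ∪ T₁ then P₁ i else []).Disjoint (if j ∈ C ∪ T₁ then P₁ j else []) := by
      by_cases h1 : i ∈ C ∪ T₁
      · by_cases h2 : j ∈ C ∪ T₁
        · simp only [h1, h2, if_true]
          exact hD₁ i h1 j h2 hij
        · simp [h2]
      · simp [h1]
    refine disj_append ?_ ?_
    · exact (disj_append (map_disjoint_same d _ hA.symm) (map_disjoint d hββ.symm _ _)).symm
    · exact (disj_append (map_disjoint d hββ _ _) (map_disjoint_same d _ hB.symm)).symm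

/-- **Many paths.** -/
theorem many : ∀ m k f, 1 ≤ k → 1 ≤ f → k + f ≤ m → Many κ m f k := by
  intro m
  induction m with
  | zero => intro k f hk hf hkf; omega
  | succ M ih =>
      intro k f hk hf hkf
      rcases Nat.lt_or_ge k 3 with h3 | h3
      · rcases Nat.lt_or_ge k 2 with h2 | h2
        · have : k = 1 := by omega
          subst this
          exact many_one M f (by omega)
        · have : k = 2 := by omega
          subst this
          obtain ⟨m', rfl⟩ : ∃ m', M = m' + 1 := ⟨M - 1, by omega⟩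
          exact many_two m' f (by omega)
      · exact many_step M k f h3 hf hkf ih

end Pool.Agent.helper16.Cube
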