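import Pool.Agent.helper16.Cube.ManyPaths
import Pool.Agent.helper16.Cube.Choice

/-!
# Balanced starlike trees span cubes
-/

namespace Pool.Agent.helper16.Cube

open Finset

variable {κ : Type*} [DecidableEq κ]

/-- disjoint paths without conditions on the ends, including the small cases -/
lemma top (m : ℕ) (hm : 1 ≤ m) (T : Finset κ) (s : κ → V m) (a : κ → ℕ)
    (hs : Set.InjOn s T) (ha : ∀ i ∈ T, Even (a i)) (h2 : ∀ i ∈ T, 2 ≤ a i)
    (hsum : ∑ i ∈ T, a i = 2 ^ m) (hk : m ≤ 2 ∨ (m = 3 ∧ T.card ≤ 3) ∨ T.card + 1 ≤ m) :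
    ∃ (P : κ → List (V m)) (e : κ → V m), (∀ i ∈ T, HP (P i) (s i) (e i) (a i)) ∧
      ∀ i ∈ T, ∀ j ∈ T, i ≠ j → (P i).Disjoint (P j) := by
  have hcb : 2 * T.card ≤ 2 ^ m := by
    have : T.card • 2 ≤ ∑ i ∈ T, a i := card_nsmul_le_sum T a 2 h2
    rw [smul_eq_mul, hsum] at this
    omega
  have hpos : T.card ≠ 0 := by
    intro h
    rw [card_eq_zero] at h
    subst h
    rw [sum_empty] at hsum
    have : 0 < 2 ^ m := by positivity
    omega
  have hcases : T.card = 1 ∨ T.card = 2 ∨ (3 ≤ T.card) := by omega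
  have fin : ∀ f k, T.card = k → Many κ m f k → ∃ (P : κ → List (V m)) (e : κ → V m),
      (∀ i ∈ T, HP (P i) (s i) (e i) (a i)) ∧
      ∀ i ∈ T, ∀ j ∈ T, i ≠ j → (P i).Disjoint (P j) := by
    intro f k hc h
    obtain ⟨P, e, h1, -, h3⟩ := h T s a (fun _ => ∅) hc hs ha h2 hsum (by simp)
    exact ⟨P, e, h1, h3⟩
  rcases hcases with h | h | h
  · obtain ⟨m', rfl⟩ : ∃ m', m = m' + 1 := ⟨m - 1, by omega⟩
    exact fin 0 1 h (many_one m' 0 (by omega))
  · have hm2 : 2 ≤ m := by
      by_contra hcon
      have : m = 1 := by omega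
      subst this
      norm_num at hcb; omega
    obtain ⟨m', rfl⟩ : ∃ m', m = m' + 2 := ⟨m - 2, by omega⟩
    exact fin 0 2 h (many_two m' 0 (by omega))
  · rcases hk with hk | ⟨hk, hc⟩ | hk
    · exfalso
      have : m = 1 ∨ m = 2 := by omega
      rcases this with rfl | rfl <;> norm_num at hcb <;> omega
    · subst hk
      have hc3 : T.card = 3 := by omega
      obtain ⟨x, y, z, hxy, hxz, hyz, rfl⟩ := card_eq_three.1 hc3
      have hx : x ∈ ({x, y, z} : Finset κ) := by simp
      have hy : y ∈ ({x, y, z} : Finset κ) := by simp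
      have hz : z ∈ ({x, y, z} : Finset κ) := by simp
      have hsum3 : a x + (a y + a z) = 8 := by
        rw [sum_insert (by simp [hxy, hxz]), sum_pair hyz] at hsum
        norm_num at hsum; exact hsum
      have sxy : s x ≠ s y := fun e => hxy (hs (by simp) (by simp) e)
      have sxz : s x ≠ s z := fun e => hxz (hs (by simp) (by simp) e)
      have syz : s y ≠ s z := fun e => hyz (hs (by simp) (by simp) e)
      obtain ⟨p, hp⟩ := ha x hx
      obtain ⟨q, hq⟩ := ha y hy
      obtain ⟨r, hr⟩ := ha z hz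
      have p2 := h2 x hx
      have q2 := h2 y hy
      have r2 := h2 z hz
      have key : ∃ l₁ l₂ l₃ t₁ t₂ t₃, HP l₁ (s x) t₁ (a x) ∧ HP l₂ (s y) t₂ (a y) ∧
          HP l₃ (s z) t₃ (a z) ∧ l₁.Disjoint l₂ ∧ l₁.Disjoint l₃ ∧ l₂.Disjoint l₃ := by
        have hc : (a x = 4 ∧ a y = 2 ∧ a z = 2) ∨ (a x = 2 ∧ a y = 4 ∧ a z = 2) ∨
          (a x = 2 ∧ a y = 2 ∧ a z = 4) := by omega
        rcases hc with ⟨e1, e2, e3⟩ | ⟨e1, e2, e3⟩ | ⟨e1, e2, e3⟩
        · obtain ⟨l₁, l₂, l₃, t₁, t₂, t₃, h1, h2, h3, d12, d13, d23⟩ :=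
            three3 (s x) (s y) (s z) sxy sxz syz
          rw [e1, e2, e3]
          exact ⟨l₁, l₂, l₃, t₁, t₂, t₃, h1, h2, h3, d12, d13, d23⟩
        · obtain ⟨l₁, l₂, l₃, t₁, t₂, t₃, h1, h2, h3, d12, d13, d23⟩ :=
            three3 (s y) (s x) (s z) sxy.symm syz sxz
          rw [e1, e2, e3]
          exact ⟨l₂, l₁, l₃, t₂, t₁, t₃, h2, h1, h3, d12.symm, d23, d13⟩
        · obtain ⟨l₁, l₂, l₃, t₁, t₂, t₃, h1, h2, h3, d12, d13, d23⟩ :=
            three3 (s z) (s x) (s y) sxz.symm syz.symm sxy
          rw [e1, e2, e3]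
          exact ⟨l₂, l₃, l₁, t₂, t₃, t₁, h2, h3, h1, d23, d12.symm, d13.symm⟩
      obtain ⟨l₁, l₂, l₃, t₁, t₂, t₃, g1, g2, g3, d12, d13, d23⟩ := key
      refine ⟨fun i => if i = x then l₁ else if i = y then l₂ else l₃,
        fun i => if i = x then t₁ else if i = y then t₂ else t₃, ?_, ?_⟩
      · intro i hi
        rw [mem_insert, mem_insert, mem_singleton] at hi
        rcases hi with rfl | rfl | rfl
        · simpa using g1
        · simpa [hxy.symm] using g2
        · simpa [hxz.symm, hyz.symm] using g3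
      · intro i hi j hj hij
        rw [mem_insert, mem_insert, mem_singleton] at hi hj
        rcases hi with rfl | rfl | rfl <;> rcases hj with rfl | rfl | rfl
        · exact absurd rfl hij
        · simpa [hxy.symm] using d12
        · simpa [hxz.symm, hyz.symm] using d13
        · simpa [hxy.symm] using d12.symm
        · exact absurd rfl hij
        · simpa [hxy.symm, hxz.symm, hyz.symm] using d23
        · simpa [hxz.symm, hyz.symm] using d13.symm
        · simpa [hxy.symm, hxz.symm, hyz.symm] using d23.symm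
        · exact absurd rfl hij
    · exact fin 1 _ rfl (many m T.card 1 (by omega) le_rfl (by omega))

/-- the origin -/
def zero (n : ℕ) : V n := fun _ => false

lemma ins_zero (n : ℕ) : ins 0 false (zero n) = zero (n + 1) := by
  funext i
  rcases Fin.eq_self_or_eq_succAbove 0 i with rfl | ⟨k, rfl⟩
  · simp [zero]
  · simp only [ins_succAbove]; rfl

/-- disjoint branches at the origin with prescribed lengths -/
def Branches (κ : Type*) (n : ℕ) (T : Finset κ) (a : κ → ℕ) : Prop :=
  ∃ (P : κ → List (V n)) (e : κ → V n),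
    (∀ i ∈ T, HP (zero n :: P i) (zero n) (e i) (a i + 1)) ∧
    ∀ i ∈ T, ∀ j ∈ T, i ≠ j → (P i).Disjoint (P j)

lemma star_base (T : Finset κ) (a : κ → ℕ) (hT : T.card = 1)
    (hsum : ∑ i ∈ T, a i + 1 = 2 ^ 1) : Branches κ 1 T a := by
  obtain ⟨x, rfl⟩ := card_eq_one.1 hT
  rw [sum_singleton] at hsum
  have hx : a x = 1 := by omega
  refine ⟨fun _ => [flip 0 (zero 1)], fun _ => flip 0 (zero 1), ?_, ?_⟩
  · intro i hi
    rw [mem_singleton] at hi
    subst hi
    rw [hx]
    have := (HP.single (zero 1)).append (HP.single (flip 0 (zero 1))) (adj_flip 0 _) (by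
      intro z hz hz'
      simp only [List.mem_singleton] at hz hz'
      exact (adj_flip 0 (zero 1)).ne (hz.symm.trans hz'))
    simpa using this
  · intro i hi j hj hij
    rw [mem_singleton] at hi hj
    exact absurd (hi.trans hj.symm) hij

lemma mem_of_cons {n : ℕ} {l : List (V n)} {s e : V n} {k : ℕ} (h : HP (s :: l) s e (k + 1))
    (hk : 1 ≤ k) : e ∈ l := by
  have hne : l ≠ [] := by
    rintro rfl
    have := h.len
    simp at this
    omega
  have h1 := h.last
  obtain ⟨x, l', rfl⟩ := List.exists_cons_of_ne_nil hne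
  rw [List.getLast?_cons_cons] at h1
  exact List.mem_of_getLast? h1

/-- the induction step -/
lemma star_step (n : ℕ) (hn : 1 ≤ n)
    (ih : ∀ (T : Finset κ) (a : κ → ℕ), T.card = n → ∑ i ∈ T, a i + 1 = 2 ^ n →
      (∃ j₀ ∈ T, a j₀ % 2 = 1 ∧ ∀ i ∈ T, i ≠ j₀ → a i % 2 = 0) → Branches κ n T a)
    (T : Finset κ) (a : κ → ℕ) (hT : T.card = n + 1) (hsum : ∑ i ∈ T, a i + 1 = 2 ^ (n + 1))
    (hodd : ∃ j₀ ∈ T, a j₀ % 2 = 1 ∧ ∀ i ∈ T, i ≠ j₀ → a i % 2 = 0) :
    Branches κ (n + 1) T a := by
  classical
  obtain ⟨j, hjT, hje, hjle, U, hU, hUsum, hcases⟩ := choice n hn T a hT hsum hodd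
  obtain ⟨j₀, hj₀, ho, he⟩ := hodd
  have hjj₀ : j ≠ j₀ := by rintro rfl; omega
  have hj₀R : j₀ ∈ T.erase j := mem_erase.2 ⟨hjj₀.symm, hj₀⟩
  have hRcard : (T.erase j).card = n := by rw [card_erase_of_mem hjT, hT]; omega
  have hRsum : a j + ∑ i ∈ T.erase j, a i + 1 = 2 ^ (n + 1) := by
    rw [add_sum_erase T a hjT]; exact hsum
  have hRT : T.erase j ⊆ T := erase_subset _ _
  have hjR : j ∉ T.erase j := notMem_erase j T
  have hpow : 2 ^ (n + 1) = 2 * 2 ^ n := by ring
  have hpow1 : 2 ^ n = 2 * 2 ^ (n - 1) := by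
    rw [← pow_succ']; congr 1; omega
  have hpos : 1 ≤ 2 ^ (n - 1) := Nat.one_le_two_pow
  set R := T.erase j with hR
  obtain ⟨b, hb1, hb2, hb3⟩ := cut R U hU a (fun i => low (a i)) (2 ^ n - 1)
    (fun i _ => low_spec (a i)) (by omega) (by omega)
    ⟨(∑ i ∈ R, a i - (2 ^ n - 1)) / 2, by omega⟩
  have hb : ∀ i ∈ R, low (a i) ≤ b i ∧ b i ≤ a i ∧ ∃ q, a i = b i + 2 * q := by
    intro i hi
    by_cases hiU : i ∈ U
    · have := hb1 i hiU
      rw [this]
      obtain ⟨A, hA⟩ := low_spec (a i)
      exact ⟨by omega, le_rfl, 0, by omega⟩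
    · exact hb2 i (mem_sdiff.2 ⟨hi, hiU⟩)
  -- the lower half
  obtain ⟨P₀, e₀, hP₀, hD₀⟩ := ih R b hRcard (by omega) ⟨j₀, hj₀R, by
      obtain ⟨-, -, q, hq⟩ := hb j₀ hj₀R
      omega, by
      intro i hi hij
      obtain ⟨-, -, q, hq⟩ := hb i hi
      have := he i (hRT hi) hij
      omega⟩
  -- the upper half
  set C := R.filter (fun i => b i < a i) with hC
  have hCR : C ⊆ R := filter_subset _ _
  have hjC : j ∉ C := fun h => hjR (hCR h)
  set J : Finset κ := if a j = 0 then ∅ else {j} with hJ
  have hJj : ∀ i ∈ J, i = j ∧ a j ≠ 0 := by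
    intro i hi
    rw [hJ] at hi
    split_ifs at hi with h
    · simp at hi
    · exact ⟨mem_singleton.1 hi, h⟩
  have hJcard : J.card ≤ 1 := by
    rw [hJ]; split_ifs <;> simp
  have hCJ : Disjoint C J := by
    rw [disjoint_left]
    intro i hi hi'
    exact hjC ((hJj i hi').1 ▸ hi)
  have hCcard : C.card + U.card ≤ n := by
    have h1 : C ⊆ R \ U := by
      intro i hi
      rw [mem_sdiff]
      refine ⟨hCR hi, fun h => ?_⟩
      have := (mem_filter.1 hi).2
      rw [hb1 i h] at this
      omega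
    have h2 := card_le_card h1
    rw [card_sdiff_of_subset hU, hRcard] at h2
    have h3 := card_le_card hU
    rw [hRcard] at h3
    omega
  have hsumC : ∑ i ∈ C, (a i - b i) = ∑ i ∈ R, (a i - b i) := by
    apply sum_subset hCR
    intro i hi hi'
    have : ¬ b i < a i := fun h => hi' (mem_filter.2 ⟨hi, h⟩)
    omega
  have hsum0 : ∑ i ∈ R, (a i - b i) + ∑ i ∈ R, b i = ∑ i ∈ R, a i := by
    rw [← sum_add_distrib]
    apply sum_congr rfl
    intro i hi
    have := (hb i hi).2.1
    omega
  have hCb : ∀ i ∈ C, 1 ≤ b i := by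
    intro i hi
    have h1 := (hb i (hCR hi)).1
    have h2 := (mem_filter.1 hi).2
    unfold low at h1
    split_ifs at h1 <;> omega
  have hCe : ∀ i ∈ C, e₀ i ∈ P₀ i := fun i hi => mem_of_cons (hP₀ i (hCR hi)) (hCb i hi)
  have hz : ∀ i ∈ R, zero n ∉ P₀ i := by
    intro i hi
    exact (List.nodup_cons.1 (hP₀ i hi).nodup).1
  obtain ⟨P₁, e₁, hP₁, hD₁⟩ := top n hn (C ∪ J) (fun i => if i = j then zero n else e₀ i)
    (fun i => if i = j then a j else a i - b i)
    (by
      intro i hi k hk hik
      rw [mem_coe, mem_union] at hi hk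
      simp only at hik
      rcases hi with hi | hi <;> rcases hk with hk | hk
      · have h1 : i ≠ j := fun e => hjC (e ▸ hi)
        have h2 : k ≠ j := fun e => hjC (e ▸ hk)
        simp only [h1, h2, if_false] at hik
        by_contra hne
        have h3 := hCe i hi
        have h4 := hCe k hk
        rw [← hik] at h4
        exact hD₀ i (hCR hi) k (hCR hk) hne h3 h4
      · have h1 : i ≠ j := fun e => hjC (e ▸ hi)
        have h2 := (hJj k hk).1
        simp only [h1, h2, if_false, if_true] at hik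
        exact absurd (hik ▸ hCe i hi) (hz i (hCR hi))
      · have h1 : k ≠ j := fun e => hjC (e ▸ hk)
        have h2 := (hJj i hi).1
        simp only [h1, h2, if_false, if_true] at hik
        exact absurd (hik ▸ hCe k hk) (hz k (hCR hk))
      · exact (hJj i hi).1.trans (hJj k hk).1.symm)
    (by
      intro i hi
      rw [mem_union] at hi
      rcases hi with hi | hi
      · have h1 : i ≠ j := fun e => hjC (e ▸ hi)
        simp only [h1, if_false]
        obtain ⟨-, -, q, hq⟩ := hb i (hCR hi)
        exact ⟨q, by omega⟩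
      · simp only [(hJj i hi).1, if_true]
        exact Nat.even_iff.2 hje)
    (by
      intro i hi
      rw [mem_union] at hi
      rcases hi with hi | hi
      · have h1 : i ≠ j := fun e => hjC (e ▸ hi)
        simp only [h1, if_false]
        obtain ⟨-, -, q, hq⟩ := hb i (hCR hi)
        have := (mem_filter.1 hi).2
        omega
      · have := (hJj i hi).2
        simp only [(hJj i hi).1, if_true]
        omega)
    (by
      rw [sum_union hCJ]
      have g1 : ∑ i ∈ C, (if i = j then a j else a i - b i) = ∑ i ∈ C, (a i - b i) := by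
        apply sum_congr rfl
        intro i hi
        have h1 : i ≠ j := fun e => hjC (e ▸ hi)
        simp [h1]
      have g2 : ∑ i ∈ J, (if i = j then a j else a i - b i) = a j := by
        rw [hJ]
        split_ifs with h
        · simp [h]
        · simp
      rw [g1, g2, hsumC]
      omega)
    (by
      rw [card_union_of_disjoint hCJ]
      omega)
  have hft : (false : Bool) ≠ true := by simp
  refine ⟨fun i => (if i ∈ R then P₀ i else []).map (ins 0 false) ++
      (if i ∈ C ∪ J then P₁ i else []).map (ins 0 true),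
    fun i => if i ∈ C ∪ J then ins 0 true (e₁ i) else
      if i ∈ R then ins 0 false (e₀ i) else zero (n + 1), ?_, ?_⟩
  · intro i hi
    by_cases hij : i = j
    · subst hij
      simp only [hjR, if_false, List.map_nil, List.nil_append]
      by_cases h0 : a i = 0
      · have hJ0 : J = ∅ := by rw [hJ, if_pos h0]
        have hni : i ∉ C ∪ J := by rw [hJ0, union_empty]; exact hjC
        simp only [hni, if_false, List.map_nil, h0, zero_add]
        exact HP.single _
      · have hJ0 : J = {i} := by rw [hJ, if_neg h0]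
        have hni : i ∈ C ∪ J := by rw [hJ0]; simp
        simp only [hni, if_true]
        have q := (hP₁ i hni).ins 0 true
        simp only [if_true] at q
        have q' := (HP.single (ins 0 false (zero n))).append q (adj_ins_ins 0 hft _) (by
          intro z hz hz'
          rw [List.mem_singleton] at hz
          rw [List.mem_map] at hz'
          obtain ⟨u, _, hu⟩ := hz'
          rw [hz] at hu
          exact ins_ne 0 hft _ _ hu.symm)
        rw [ins_zero, add_comm 1 (a i)] at q'
        exact q'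
    · have hiR : i ∈ R := mem_erase.2 ⟨hij, hi⟩
      have q0 := (hP₀ i hiR).ins 0 false
      rw [List.map_cons, ins_zero] at q0
      by_cases hiC : i ∈ C
      · have hiU : i ∈ C ∪ J := mem_union_left _ hiC
        simp only [hiR, hiU, if_true]
        have q1 := (hP₁ i hiU).ins 0 true
        simp only [hij, if_false] at q1
        have q := q0.append q1 (adj_ins_ins 0 hft _) (by
          rw [← ins_zero, ← List.map_cons]
          exact map_disjoint 0 hft _ _)
        have : b i + 1 + (a i - b i) = a i + 1 := by have := (hb i hiR).2.1; omega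
        rw [this] at q
        exact q
      · have hiU : i ∉ C ∪ J := by
          rw [mem_union, not_or]
          exact ⟨hiC, fun h => hij (hJj i h).1⟩
        simp only [hiR, hiU, if_true, if_false, List.map_nil, List.append_nil]
        have : b i = a i := by
          have h1 := (hb i hiR).2.1
          have h2 : ¬ b i < a i := fun h => hiC (mem_filter.2 ⟨hiR, h⟩)
          omega
        rw [this] at q0
        exact q0
  · intro i hi k hk hik
    have hA : (if i ∈ R then P₀ i else []).Disjoint (if k ∈ R then P₀ k else []) := by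
      by_cases h1 : i ∈ R
      · by_cases h2 : k ∈ R
        · simp only [h1, h2, if_true]
          exact hD₀ i h1 k h2 hik
        · simp [h2]
      · simp [h1]
    have hB : (if i ∈ C ∪ J then P₁ i else []).Disjoint (if k ∈ C ∪ J then P₁ k else []) := by
      by_cases h1 : i ∈ C ∪ J
      · by_cases h2 : k ∈ C ∪ J
        · simp only [h1, h2, if_true]
          exact hD₁ i h1 k h2 hik
        · simp [h2]
      · simp [h1]
    refine disj_append ?_ ?_
    · exact (disj_append (map_disjoint_same 0 _ hA.symm) (map_disjoint 0 hft.symm _ _)).symm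
    · exact (disj_append (map_disjoint 0 hft _ _) (map_disjoint_same 0 _ hB.symm)).symm

/-- **Balanced starlike trees.** -/
theorem star : ∀ n, 1 ≤ n → ∀ (T : Finset κ) (a : κ → ℕ), T.card = n →
    ∑ i ∈ T, a i + 1 = 2 ^ n →
    (∃ j₀ ∈ T, a j₀ % 2 = 1 ∧ ∀ i ∈ T, i ≠ j₀ → a i % 2 = 0) → Branches κ n T a := by
  intro n hn
  induction n, hn using Nat.le_induction with
  | base => intro T a hT hsum _; exact star_base T a hT hsum
  | succ n hn ih => intro T a hT hsum hodd; exact star_step n hn ih T a hT hsum hodd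

end Pool.Agent.helper16.Cube
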