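import Pool.Agent.helper16.Cube.Base

/-!
# Two paths in a cube
-/

namespace Pool.Agent.helper16.Cube

open Finset

lemma zmod2_cases (x : ZMod 2) : x = 0 ∨ x = 1 := by
  revert x; decide

/-- a vertex of prescribed parity outside a small set -/
lemma exists_par (n : ℕ) (c : ZMod 2) (B : Finset (V (n + 1))) (hB : B.card < 2 ^ n) :
    ∃ x, par x = c ∧ x ∉ B := by
  classical
  let φ : V n → V (n + 1) := fun y => ins 0 (decide (par y ≠ c)) y
  have hφi : Function.Injective φ := by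
    intro x y h
    have := congrArg (rem 0) h
    simpa [φ] using this
  have hφp : ∀ y, par (φ y) = c := by
    intro y
    simp only [φ, par_ins]
    by_cases h : par y = c
    · simp [h]
    · have h1 : (if decide (par y ≠ c) = true then (1 : ZMod 2) else 0) = 1 := by simp [h]
      rw [h1]
      rcases zmod2_cases (par y) with h2 | h2 <;> rcases zmod2_cases c with h3 | h3
      · exact absurd (h2.trans h3.symm) h
      · rw [h2, h3]; decide
      · rw [h2, h3]; decide
      · exact absurd (h2.trans h3.symm) h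
  by_contra hcon
  push Not at hcon
  have hsub : univ.image φ ⊆ B := by
    intro x hx
    simp only [mem_image, mem_univ, true_and] at hx
    obtain ⟨y, rfl⟩ := hx
    exact hcon _ (hφp y)
  have := card_le_card hsub
  rw [card_image_of_injective _ hφi, card_univ] at this
  simp at this
  omega

lemma disj_append {α : Type*} {l₁ l₂ l₃ : List α} (h : l₁.Disjoint l₃) (h' : l₂.Disjoint l₃) :
    (l₁ ++ l₂).Disjoint l₃ := by
  intro x hx hx'
  rcases List.mem_append.1 hx with h1 | h1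
  · exact h h1 hx'
  · exact h' h1 hx'

lemma not_mem_of_rem {m : ℕ} {d : Fin (m + 1)} {b : Bool} {t : V m} {F : Finset (V (m + 1))}
    (h : t ∉ F.image (rem d)) : ins d b t ∉ F := by
  intro hm
  apply h
  rw [mem_image]
  exact ⟨_, hm, rem_ins d b t⟩

/-- the induction step when the first path is not shorter -/
lemma two_step {m : ℕ} (hm : 1 ≤ m) (ih : Two (m + 2) m)
    (s₁ s₂ : V (m + 3)) (a₁ a₂ : ℕ) (F₁ F₂ : Finset (V (m + 3))) (hs : s₁ ≠ s₂)
    (ha₁ : Even a₁) (ha₂ : Even a₂) (h₂ : 2 ≤ a₂) (hsum : a₁ + a₂ = 2 ^ (m + 3))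
    (hF₁ : F₁.card ≤ m + 1) (hF₂ : F₂.card ≤ m + 1) (hle : a₂ ≤ a₁) :
    ∃ l₁ l₂ t₁ t₂, HP l₁ s₁ t₁ a₁ ∧ HP l₂ s₂ t₂ a₂ ∧ l₁.Disjoint l₂ ∧ t₁ ∉ F₁ ∧ t₂ ∉ F₂ := by
  classical
  have hpow : 2 ^ (m + 3) = 2 ^ (m + 2) + 2 ^ (m + 2) := by ring
  rcases Nat.lt_or_ge (2 ^ (m + 2)) a₁ with hlong | hshort
  · -- the first path is long
    obtain ⟨b, hb⟩ : ∃ b, a₁ = 2 ^ (m + 2) + b := ⟨a₁ - 2 ^ (m + 2), by omega⟩
    have hb2 : b + a₂ = 2 ^ (m + 2) := by omega
    have hbe : Even b := by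
      have h1 : Even (2 ^ (m + 2)) := by
        rw [Nat.even_pow]; exact ⟨even_two, by omega⟩
      rw [hb, Nat.even_add] at ha₁
      exact ha₁.1 h1
    have hb3 : 2 ≤ b := by
      obtain ⟨c, hc⟩ := hbe
      omega
    -- choice of the direction
    have hd : ∃ d : Fin (m + 3), ((F₂.filter (fun x => x d = s₂ d)).image (rem d)).card ≤ m := by
      by_cases hx : ∃ x ∈ F₂, x ≠ s₂
      · obtain ⟨x, hx1, hx2⟩ := hx
        obtain ⟨d, hd⟩ := Function.ne_iff.1 hx2
        refine ⟨d, ?_⟩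
        have h1 : (F₂.filter (fun x => x d = s₂ d)).card < F₂.card := by
          apply card_lt_card
          rw [filter_ssubset]
          exact ⟨x, hx1, hd⟩
        have := card_image_le (s := F₂.filter (fun x => x d = s₂ d)) (f := rem d)
        omega
      · push Not at hx
        refine ⟨0, ?_⟩
        have h1 : F₂ ⊆ {s₂} := by
          intro x hx'
          rw [mem_singleton]; exact hx x hx'
        have h2 : (F₂.filter (fun x => x 0 = s₂ 0)).card ≤ 1 := by
          calc _ ≤ F₂.card := card_filter_le _ _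
            _ ≤ _ := card_le_card h1
            _ = 1 := card_singleton _
        have := card_image_le (s := F₂.filter (fun x => x 0 = s₂ 0)) (f := rem 0)
        omega
    obtain ⟨d, hd⟩ := hd
    have hs₂ := ins_rem d s₂
    have hs₁ := ins_rem d s₁
    have key : ∀ t, t ∉ (F₂.filter (fun x => x d = s₂ d)).image (rem d) →
        ins d (s₂ d) t ∉ F₂ := by
      intro t ht hm
      apply ht
      rw [mem_image]
      refine ⟨_, ?_, rem_ins d (s₂ d) t⟩
      rw [mem_filter]
      exact ⟨hm, by simp⟩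
    have hF₁' : (F₁.image (rem d)).card ≤ m + 1 := le_trans card_image_le hF₁
    by_cases hsd : s₁ d = s₂ d
    · -- both starts in the same half
      have hne : rem d s₁ ≠ rem d s₂ := fun e => hs (rem_injOn hsd e)
      obtain ⟨l₁, l₂, t₁, t₂, p₁, p₂, hdis, -, ht₂⟩ := ih (rem d s₁) (rem d s₂) b a₂ ∅ _ hne hbe ha₂
        hb3 h₂ hb2 (by simp) hd
      obtain ⟨l₃, t₃, p₃, ht₃⟩ := one (m + 1) t₁ _ hF₁'
      have hbn : s₁ d ≠ !(s₁ d) := by cases s₁ d <;> simp
      have q := (p₁.ins d (s₁ d)).append (p₃.ins d (!(s₁ d))) (adj_ins_ins d hbn _)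
        (map_disjoint d hbn _ _)
      rw [hs₁] at q
      have q₂ := p₂.ins d (s₂ d)
      rw [hs₂] at q₂
      have e : b + 2 ^ (m + 1 + 1) = a₁ := by rw [hb]; ring
      rw [e] at q
      refine ⟨_, _, _, _, q, q₂, ?_, not_mem_of_rem ht₃, key _ ht₂⟩
      rw [← hsd]
      exact disj_append (map_disjoint_same d _ hdis) (map_disjoint d hbn.symm _ _)
    · -- the starts are separated
      obtain ⟨t₁, ht₁, ht₁'⟩ := exists_par (m + 1) (par (rem d s₁))
        (insert (rem d s₂) (F₁.image (rem d))) (by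
          have h1 := card_insert_le (rem d s₂) (F₁.image (rem d))
          have h2 : m + 2 < 2 ^ (m + 1) := by
            have : ∀ k, 1 ≤ k → k + 2 < 2 ^ (k + 1) := by
              intro k hk
              induction k, hk using Nat.le_induction with
              | base => norm_num
              | succ k hk ih2 => rw [pow_succ]; omega
            exact this m hm
          omega)
      rw [mem_insert, not_or] at ht₁'
      obtain ⟨l₁, l₂, w, t₂, p₁, p₂, hdis, -, ht₂⟩ := ih t₁ (rem d s₂) b a₂ ∅ _ ht₁'.1 hbe ha₂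
        hb3 h₂ hb2 (by simp) hd
      obtain ⟨l₃, p₃⟩ := havel (m + 1) (rem d s₁) w (by
        rw [p₁.par_even hbe, ht₁])
      have q := (p₃.ins d (s₁ d)).append (p₁.reverse.ins d (s₂ d)) (adj_ins_ins d hsd _)
        (map_disjoint d hsd _ _)
      rw [hs₁] at q
      have q₂ := p₂.ins d (s₂ d)
      rw [hs₂] at q₂
      have e : 2 ^ (m + 1 + 1) + b = a₁ := by rw [hb]
      rw [e] at q
      refine ⟨_, _, _, _, q, q₂, ?_, not_mem_of_rem ht₁'.2, key _ ht₂⟩
      refine disj_append (map_disjoint d hsd _ _) (map_disjoint_same d _ ?_)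
      intro x hx hx'
      exact hdis (List.mem_reverse.1 hx) hx'
  · -- equal lengths
    have e1 : a₁ = 2 ^ (m + 2) := by omega
    have e2 : a₂ = 2 ^ (m + 2) := by omega
    obtain ⟨d, hd⟩ := Function.ne_iff.1 hs
    have hs₂ := ins_rem d s₂
    have hs₁ := ins_rem d s₁
    obtain ⟨l₁, t₁, p₁, ht₁⟩ := one (m + 1) (rem d s₁) (F₁.image (rem d))
      (le_trans card_image_le hF₁)
    obtain ⟨l₂, t₂, p₂, ht₂⟩ := one (m + 1) (rem d s₂) (F₂.image (rem d))
      (le_trans card_image_le hF₂)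
    have q₁ := p₁.ins d (s₁ d)
    have q₂ := p₂.ins d (s₂ d)
    rw [hs₁] at q₁
    rw [hs₂] at q₂
    exact ⟨_, _, _, _, by rw [e1]; exact q₁, by rw [e2]; exact q₂, map_disjoint d hd _ _,
      not_mem_of_rem ht₁, not_mem_of_rem ht₂⟩

/-- **Two paths.** -/
theorem two : ∀ m, Two (m + 2) m
  | 0 => two2
  | 1 => two3
  | m + 2 => by
      have ih := two (m + 1)
      intro s₁ s₂ a₁ a₂ F₁ F₂ hs ha₁ ha₂ h₁ h₂ hsum hF₁ hF₂
      rcases le_total a₂ a₁ with h | h
      · exact two_step (by omega) ih s₁ s₂ a₁ a₂ F₁ F₂ hs ha₁ ha₂ h₂ hsum hF₁ hF₂ h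
      · obtain ⟨l₁, l₂, t₁, t₂, p₁, p₂, hd, ht₁, ht₂⟩ := two_step (by omega) ih s₂ s₁ a₂ a₁ F₂ F₁
          hs.symm ha₂ ha₁ h₁ (by rw [add_comm]; exact hsum) hF₂ hF₁ h
        exact ⟨l₂, l₁, t₂, t₁, p₂, p₁, hd.symm, ht₂, ht₁⟩

end Pool.Agent.helper16.Cube
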